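import Mathlib

/-!
# MP_f0f0c5 (H75/GC): exponentials of nilpotent elements and the function `Γ(1 + x)`

`A` is a commutative real Banach algebra and `x ∈ A` is nilpotent, `x ^ D = 0`.
-/

namespace Pool.Agent.H75.GC

open Filter Topology NormedSpace Finset

variable {A : Type*} [NormedCommRing A] [NormedAlgebra ℝ A] [CompleteSpace A]

theorem eadd (x y : A) : exp (x + y) = exp x * exp y := by
  let _ : NormedAlgebra ℚ A := NormedAlgebra.restrictScalars ℚ ℝ A
  exact exp_add_of_commute (Commute.all _ _)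

theorem econt : Continuous (exp : A → A) := by
  let _ : NormedAlgebra ℚ A := NormedAlgebra.restrictScalars ℚ ℝ A
  exact exp_continuous

theorem eneg_mul (x : A) : exp (-x) * exp x = 1 := by
  rw [← eadd, neg_add_cancel, exp_zero]

theorem emul_neg (x : A) : exp x * exp (-x) = 1 := by
  rw [← eadd, add_neg_cancel, exp_zero]

omit [CompleteSpace A] in
/-- The exponential of a nilpotent element is a finite sum. -/
theorem exp_nil {x : A} {D : ℕ} (hx : x ^ D = 0) :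
    exp x = ∑ i ∈ range D, ((i.factorial : ℝ)⁻¹) • x ^ i := by
  rw [exp_eq_tsum (𝕂 := ℝ)]
  refine tsum_eq_sum (s := range D) ?_
  intro i hi
  have hi' : D ≤ i := by simpa using hi
  obtain ⟨k, rfl⟩ := Nat.exists_eq_add_of_le hi'
  rw [pow_add, hx, zero_mul, smul_zero]

omit [CompleteSpace A] in
theorem exp_smul_nil {x : A} {D : ℕ} (hx : x ^ D = 0) (l : ℝ) :
    exp (l • x) = ∑ i ∈ range D, (l ^ i / (i.factorial : ℝ)) • x ^ i := by
  have h : (l • x) ^ D = 0 := by rw [smul_pow, hx, smul_zero]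
  rw [exp_nil h]
  refine sum_congr rfl fun i _ => ?_
  rw [smul_pow, smul_smul]
  congr 1
  ring

/-- The exponential of a multiple of a nilpotent element grows slower than any exponential. -/
theorem norm_exp_smul_le {x : A} {D : ℕ} (hx : x ^ D = 0) {e : ℝ} (he : 0 < e) :
    ∃ C : ℝ, 0 ≤ C ∧ ∀ l : ℝ, ‖exp (l • x)‖ ≤ C * Real.exp (e * |l|) := by
  refine ⟨∑ i ∈ range D, ‖x ^ i‖ / e ^ i, sum_nonneg fun i _ => by positivity, fun l => ?_⟩
  rw [exp_smul_nil hx, sum_mul]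
  refine (norm_sum_le _ _).trans (sum_le_sum fun i _ => ?_)
  rw [norm_smul, norm_div, norm_pow, Real.norm_eq_abs, Real.norm_natCast]
  have h := Real.pow_div_factorial_le_exp (e * |l|) (by positivity) i
  have h2 : |l| ^ i / (i.factorial : ℝ) * ‖x ^ i‖
      = ‖x ^ i‖ / e ^ i * ((e * |l|) ^ i / (i.factorial : ℝ)) := by
    rw [mul_pow]
    field_simp
  rw [h2]
  exact mul_le_mul_of_nonneg_left h (by positivity)

/-- `exp (l x) - 1` is small for small `l`. -/
theorem norm_exp_smul_sub_one_le {x : A} {D : ℕ} (hx : x ^ D = 0) :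
    ∃ C : ℝ, 0 ≤ C ∧ ∀ l : ℝ, ‖exp (l • x) - 1‖ ≤ C * ∑ i ∈ range D, |l| ^ (i + 1) := by
  refine ⟨∑ i ∈ range (D + 1), ‖x ^ i‖, sum_nonneg fun i _ => by positivity, fun l => ?_⟩
  have hx' : x ^ (D + 1) = 0 := by rw [pow_succ, hx, zero_mul]
  rw [exp_smul_nil hx', sum_range_succ' (fun i => (l ^ i / (i.factorial : ℝ)) • x ^ i)]
  simp only [pow_zero, Nat.factorial_zero, Nat.cast_one, div_one, one_smul, add_sub_cancel_right]
  refine (norm_sum_le _ _).trans ?_
  rw [mul_sum]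
  refine sum_le_sum fun i hi => ?_
  rw [norm_smul, norm_div, norm_pow, Real.norm_eq_abs, Real.norm_natCast, mul_comm]
  refine mul_le_mul ?_ ?_ (by positivity) (sum_nonneg fun i _ => by positivity)
  · refine single_le_sum (f := fun i => ‖x ^ i‖) (fun i _ => norm_nonneg _) ?_
    simp only [mem_range] at hi ⊢
    omega
  · refine div_le_self (by positivity) ?_
    exact_mod_cast Nat.one_le_iff_ne_zero.mpr (Nat.factorial_ne_zero _)

/-- The logarithm series of a nilpotent element. -/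
noncomputable def lg (D : ℕ) (x : A) : A :=
  ∑ i ∈ range D, ((-1 : ℝ) ^ i / ((i : ℝ) + 1)) • x ^ (i + 1)

theorem one_add_eq_exp_lg {x : A} {D : ℕ} (hx : x ^ (D + 1) = 0) : 1 + x = exp (lg D x) := by
  let L : ℝ → A := fun t => ∑ i ∈ range D, (((-1 : ℝ) ^ i / ((i : ℝ) + 1)) * t ^ (i + 1)) • x ^ (i + 1)
  have hL : ∀ t, HasDerivAt L (∑ i ∈ range D, ((-1 : ℝ) ^ i * t ^ i) • x ^ (i + 1)) t := by
    intro t
    have h : HasDerivAt (fun t : ℝ => ∑ i ∈ range D,
        (((-1 : ℝ) ^ i / ((i : ℝ) + 1)) * t ^ (i + 1)) • x ^ (i + 1))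
        (∑ i ∈ range D, ((-1 : ℝ) ^ i * t ^ i) • x ^ (i + 1)) t := by
      refine HasDerivAt.fun_sum fun i _ => ?_
      have h1 : HasDerivAt (fun t : ℝ => ((-1 : ℝ) ^ i / ((i : ℝ) + 1)) * t ^ (i + 1))
          ((-1 : ℝ) ^ i * t ^ i) t := by
        have h2 := (hasDerivAt_pow (i + 1) t).const_mul ((-1 : ℝ) ^ i / ((i : ℝ) + 1))
        have h3 : (-1 : ℝ) ^ i / ((i : ℝ) + 1) * (((i + 1 : ℕ) : ℝ) * t ^ (i + 1 - 1))
            = (-1 : ℝ) ^ i * t ^ i := by
          rw [Nat.add_sub_cancel]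
          push_cast
          field_simp
        rw [h3] at h2
        exact h2
      exact h1.smul_const (x ^ (i + 1))
    exact h
  have hgeo : ∀ t : ℝ, (1 + t • x) * (∑ i ∈ range D, ((-1 : ℝ) ^ i * t ^ i) • x ^ (i + 1)) = x := by
    intro t
    have h1 : (∑ i ∈ range D, ((-1 : ℝ) ^ i * t ^ i) • x ^ (i + 1))
        = x * ∑ i ∈ range D, (-(t • x)) ^ i := by
      rw [mul_sum]
      refine sum_congr rfl fun i _ => ?_
      rw [← neg_smul, smul_pow, mul_smul_comm, ← pow_succ', neg_pow t]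
    have h2 := mul_neg_geom_sum (-(t • x)) D
    rw [sub_neg_eq_add] at h2
    rw [h1, mul_left_comm, h2, mul_sub, mul_one, ← neg_smul, smul_pow, mul_smul_comm, ← pow_succ',
      hx, smul_zero, sub_zero]
  let f : ℝ → A := fun t => exp (-L t) * (1 + t • x)
  have hf : ∀ t, HasDerivAt f 0 t := by
    intro t
    have h1 : HasDerivAt (fun t => exp (-L t))
        (exp (-L t) * (-(∑ i ∈ range D, ((-1 : ℝ) ^ i * t ^ i) • x ^ (i + 1)))) t := by
      have h2 := (hasFDerivAt_exp (𝕂 := ℝ) (x := -L t)).comp_hasDerivAt t (hL t).neg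
      have h3 : (exp (-L t) • (1 : A →L[ℝ] A)) (-(∑ i ∈ range D, ((-1 : ℝ) ^ i * t ^ i) • x ^ (i + 1)))
          = exp (-L t) * (-(∑ i ∈ range D, ((-1 : ℝ) ^ i * t ^ i) • x ^ (i + 1))) := by
        simp
      rw [h3] at h2
      exact h2
    have h3 : HasDerivAt (fun t : ℝ => 1 + t • x) x t := by
      have := (hasDerivAt_id t).smul_const x
      simpa using this.const_add 1
    have h4 := h1.mul h3
    have h5 := hgeo t
    have h6 : (exp (-L t) * (-(∑ i ∈ range D, ((-1 : ℝ) ^ i * t ^ i) • x ^ (i + 1)))) * (1 + t • x)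
        + exp (-L t) * x = 0 := by
      calc _ = exp (-L t) * (x - (1 + t • x) * (∑ i ∈ range D, ((-1 : ℝ) ^ i * t ^ i) • x ^ (i + 1))) := by
            generalize (∑ i ∈ range D, ((-1 : ℝ) ^ i * t ^ i) • x ^ (i + 1)) = S
            ring
        _ = 0 := by rw [h5, sub_self, mul_zero]
    rw [h6] at h4
    exact h4
  have hconst : f 1 = f 0 :=
    is_const_of_deriv_eq_zero (fun t => (hf t).differentiableAt) (fun t => (hf t).deriv) 1 0
  have hL0 : L 0 = 0 := by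
    simp [L]
  have hL1 : L 1 = lg D x := by
    simp [L, lg]
  have h6 : exp (-lg D x) * (1 + x) = 1 := by
    have : exp (-L 1) * (1 + (1 : ℝ) • x) = exp (-L 0) * (1 + (0 : ℝ) • x) := hconst
    simpa [hL0, hL1] using this
  have h7 : exp (lg D x) * exp (-lg D x) = 1 := emul_neg _
  calc 1 + x = (exp (lg D x) * exp (-lg D x)) * (1 + x) := by rw [h7, one_mul]
    _ = exp (lg D x) * (exp (-lg D x) * (1 + x)) := by ring
    _ = exp (lg D x) := by rw [h6, mul_one]

/-- The values `ζ(k)` as sums. -/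
noncomputable def zetaR (k : ℕ) : ℝ := ∑' n : ℕ, 1 / ((n : ℝ) + 1) ^ k

/-- `Γ(1 + x)` for a nilpotent element `x`, `x ^ (D + 1) = 0`, as an exponential. -/
noncomputable def gam (D : ℕ) (x : A) : A :=
  exp (-(Real.eulerMascheroniConstant • x)
    + ∑ k ∈ Icc 2 D, ((-1 : ℝ) ^ k * zetaR k / (k : ℝ)) • x ^ k)

/-- The partial products. -/
noncomputable def pf (x : A) (n : ℕ) : A := ∏ m ∈ range n, (1 + (((m : ℝ) + 1)⁻¹) • x)

theorem pf_eq {x : A} {D : ℕ} (hx : x ^ (D + 1) = 0) (n : ℕ) :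
    pf x n = exp (∑ i ∈ range D, ((-1 : ℝ) ^ i / ((i : ℝ) + 1)
      * ∑ m ∈ range n, 1 / ((m : ℝ) + 1) ^ (i + 1)) • x ^ (i + 1)) := by
  have h1 : ∀ m : ℕ, 1 + (((m : ℝ) + 1)⁻¹) • x = exp (lg D ((((m : ℝ) + 1)⁻¹) • x)) := fun m =>
    one_add_eq_exp_lg (by rw [smul_pow, hx, smul_zero])
  have h2 : pf x n = exp (∑ m ∈ range n, lg D ((((m : ℝ) + 1)⁻¹) • x)) := by
    unfold pf
    induction n with
    | zero => simp
    | succ n ih =>
      rw [prod_range_succ, ih, h1, sum_range_succ, eadd]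
  rw [h2]
  congr 1
  unfold lg
  rw [sum_comm]
  refine sum_congr rfl fun i _ => ?_
  rw [mul_sum, sum_smul]
  refine sum_congr rfl fun m _ => ?_
  rw [smul_pow, smul_smul, inv_pow, one_div]

theorem summable_zetaR {k : ℕ} (hk : 2 ≤ k) : Summable fun n : ℕ => 1 / ((n : ℝ) + 1) ^ k := by
  have h := (Real.summable_one_div_nat_pow (p := k)).mpr (by omega)
  have h2 := (summable_nat_add_iff 1).mpr h
  simpa using h2

/-- Euler's limit formula for nilpotent elements. -/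
theorem tendsto_pf {x : A} {D : ℕ} (hx : x ^ (D + 1) = 0) :
    Tendsto (fun n : ℕ => pf x n * exp (-(Real.log n • x))) atTop
      (𝓝 (exp (-(-(Real.eulerMascheroniConstant • x)
    + ∑ k ∈ Icc 2 D, ((-1 : ℝ) ^ k * zetaR k / (k : ℝ)) • x ^ k)))) := by
  have h0 : ∀ n : ℕ, pf x n * exp (-(Real.log n • x)) = exp ((∑ i ∈ range D, ((-1 : ℝ) ^ i / ((i : ℝ) + 1)
      * ∑ m ∈ range n, 1 / ((m : ℝ) + 1) ^ (i + 1)) • x ^ (i + 1)) - Real.log n • x) := by
    intro n
    rw [pf_eq hx, sub_eq_add_neg, eadd]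
  simp_rw [h0]
  refine (econt.tendsto _).comp ?_
  rcases Nat.eq_zero_or_pos D with hD | hD
  · subst hD
    have hx0 : x = 0 := by simpa using hx
    simp [hx0]
  obtain ⟨E, rfl⟩ : ∃ E, D = E + 1 := ⟨D - 1, by omega⟩
  have h1 : ∀ n : ℕ, (∑ i ∈ range (E + 1), ((-1 : ℝ) ^ i / ((i : ℝ) + 1)
      * ∑ m ∈ range n, 1 / ((m : ℝ) + 1) ^ (i + 1)) • x ^ (i + 1)) - Real.log n • x
      = (∑ i ∈ range E, ((-1 : ℝ) ^ (i + 1) / ((i : ℝ) + 2)
      * ∑ m ∈ range n, 1 / ((m : ℝ) + 1) ^ (i + 2)) • x ^ (i + 2))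
        + ((harmonic n : ℝ) - Real.log n) • x := by
    intro n
    rw [sum_range_succ' _ E]
    have h2 : ((harmonic n : ℚ) : ℝ) = ∑ m ∈ range n, 1 / ((m : ℝ) + 1) := by
      simp [harmonic]
    rw [h2, sub_smul, add_sub_assoc]
    congr 1
    · refine sum_congr rfl fun i _ => ?_
      push_cast
      ring_nf
    · simp
  simp_rw [h1]
  have h3 : -(-(Real.eulerMascheroniConstant • x)
      + ∑ k ∈ Icc 2 (E + 1), ((-1 : ℝ) ^ k * zetaR k / (k : ℝ)) • x ^ k)
      = (∑ i ∈ range E, ((-1 : ℝ) ^ (i + 1) / ((i : ℝ) + 2) * zetaR (i + 2)) • x ^ (i + 2))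
        + Real.eulerMascheroniConstant • x := by
    have h4 : ∑ k ∈ Icc 2 (E + 1), ((-1 : ℝ) ^ k * zetaR k / (k : ℝ)) • x ^ k
        = ∑ i ∈ range E, ((-1 : ℝ) ^ (i + 2) * zetaR (i + 2) / ((i + 2 : ℕ) : ℝ)) • x ^ (i + 2) := by
      rw [range_eq_Ico, sum_Ico_add' (fun k => ((-1 : ℝ) ^ k * zetaR k / (k : ℝ)) • x ^ k) 0 E 2]
      refine sum_congr ?_ fun _ _ => rfl
      ext k
      simp only [mem_Icc, mem_Ico]
      omega
    rw [h4, neg_add, neg_neg, add_comm, ← sum_neg_distrib]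
    congr 1
    refine sum_congr rfl fun i _ => ?_
    rw [← neg_smul]
    congr 1
    push_cast
    rw [pow_succ (-1 : ℝ) (i + 1)]
    ring
  rw [h3]
  refine Tendsto.add (tendsto_finsetSum _ fun i _ => ?_) ?_
  · refine Tendsto.smul_const ?_ _
    refine Tendsto.const_mul _ ?_
    exact (summable_zetaR (k := i + 2) (by omega)).hasSum.tendsto_sum_nat
  · exact Tendsto.smul_const Real.tendsto_harmonic_sub_log _

theorem gam_mul_tendsto {x : A} {D : ℕ} (hx : x ^ (D + 1) = 0) :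
    Tendsto (fun n : ℕ => gam D x * (pf x n * exp (-(Real.log n • x)))) atTop (𝓝 1) := by
  have h := (tendsto_pf hx).const_mul (gam D x)
  have h2 : gam D x * exp (-(-(Real.eulerMascheroniConstant • x)
    + ∑ k ∈ Icc 2 D, ((-1 : ℝ) ^ k * zetaR k / (k : ℝ)) • x ^ k)) = 1 := by
    unfold gam
    exact emul_neg _
  rwa [h2] at h

end Pool.Agent.H75.GC
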