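import Pool.Agent.H75.GC.Lef

/-!
# MP_f0f0c5 (H75/GC): Q1 for complete intersections in products
-/

namespace Pool.Agent.H75.GC

open Filter Topology NormedSpace Finset MeasureTheory

theorem zeta_eq {k : ℕ} (hk : 2 ≤ k) : riemannZeta k = ((zetaR k : ℝ) : ℂ) := by
  rw [zeta_nat_eq_tsum_of_gt_one (by omega)]
  have h1 : Summable fun n : ℕ => (1 : ℂ) / (n : ℂ) ^ k := by
    have h2 := (Real.summable_one_div_nat_pow (p := k)).mpr (by omega)
    have h3 := Complex.ofRealCLM.summable h2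
    refine h3.congr fun n => ?_
    simp
  rw [h1.tsum_eq_zero_add]
  unfold zetaR
  rw [Complex.ofReal_tsum]
  have h4 : (1 : ℂ) / ((0 : ℕ) : ℂ) ^ k = 0 := by
    rw [Nat.cast_zero, zero_pow (by omega), div_zero]
  rw [h4, zero_add]
  refine tsum_congr fun n => ?_
  push_cast
  rfl

namespace Fano

variable (X : Fano)

/-- The exponent of the Gamma class, with the sum up to any `E ≥ dim`. -/
theorem gammaClass_eq {E : ℕ} (hE : X.dim ≤ E) : X.gammaClass
    = exp (-(Real.eulerMascheroniConstant • X.ch 1)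
    + ∑ k ∈ Icc 2 E, ((-1 : ℝ) ^ k * ((k - 1).factorial : ℝ) * zetaR k) • X.ch k) := by
  unfold QData.gammaClass
  congr 1
  rw [X.cs]
  congr 1
  have h1 : ∑ k ∈ Icc 2 E, ((-1 : ℝ) ^ k * ((k - 1).factorial : ℝ) * zetaR k) • X.ch k
      = ∑ k ∈ Icc 2 X.dim, ((-1 : ℝ) ^ k * ((k - 1).factorial : ℝ) * zetaR k) • X.ch k := by
    refine (sum_subset (Icc_subset_Icc le_rfl hE) fun k hk hk' => ?_).symm
    rw [mem_Icc] at hk hk'
    rw [X.ch_top k (by omega), smul_zero]
  rw [h1]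
  refine sum_congr rfl fun k hk => ?_
  rw [mem_Icc] at hk
  rw [zeta_eq hk.1, ← X.cs]
  push_cast
  rfl

end Fano

namespace Intersection

variable {ι κ : Type} [Fintype ι] [Fintype κ] (P : Intersection ι κ)

theorem prod_exp {α : Type} (u : Finset α) (f : α → P.Y.H) :
    ∏ i ∈ u, exp (f i) = exp (∑ i ∈ u, f i) := by
  classical
  induction u using Finset.induction_on with
  | empty => simp
  | insert i u hi ih => rw [prod_insert hi, sum_insert hi, ih, eadd]

theorem ch_real {m : ℕ} (hm : 1 ≤ m) : P.Y.ch m = ∑ k, P.pull k ((P.X k).ch m)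
    - ∑ j, ((m.factorial : ℝ)⁻¹) • P.L j ^ m := by
  rw [P.ch_eq m hm]
  congr 1
  refine sum_congr rfl fun j _ => ?_
  rw [← P.cs]
  push_cast
  rfl

/-- Multiplicativity of the Gamma class. -/
theorem gamma_Y : P.Y.gammaClass = P.gLinv * ∏ k, P.pull k ((P.X k).gammaClass) := by
  set E : ℕ := P.Y.dim + ∑ k, (P.X k).dim with hE
  have hEk : ∀ k, (P.X k).dim ≤ E := fun k =>
    (single_le_sum (f := fun k => (P.X k).dim) (fun _ _ => Nat.zero_le _) (mem_univ k)).trans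
      (Nat.le_add_left _ _)
  have h1 : ∀ k, P.pull k ((P.X k).gammaClass) = exp (-(Real.eulerMascheroniConstant • P.pull k ((P.X k).ch 1))
      + ∑ m ∈ Icc 2 E, ((-1 : ℝ) ^ m * ((m - 1).factorial : ℝ) * zetaR m) • P.pull k ((P.X k).ch m)) := by
    intro k
    rw [(P.X k).gammaClass_eq (hEk k), P.pull_exp, map_add, map_neg, P.pull_smul, map_sum]
    simp_rw [P.pull_smul]
  have h2 : ∀ j, ∑ m ∈ Icc 2 P.Y.dim, ((-1 : ℝ) ^ m * zetaR m / (m : ℝ)) • P.L j ^ m
      = ∑ m ∈ Icc 2 E, ((-1 : ℝ) ^ m * zetaR m / (m : ℝ)) • P.L j ^ m := by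
    intro j
    refine sum_subset (Icc_subset_Icc le_rfl (Nat.le_add_right _ _)) fun m hm hm' => ?_
    rw [mem_Icc] at hm hm'
    obtain ⟨i, rfl⟩ := Nat.exists_eq_add_of_le (show P.Y.dim + 1 ≤ m by omega)
    rw [pow_add (P.L j), P.L_nil, zero_mul, smul_zero]
  rw [P.Y.gammaClass_eq (Nat.le_add_right _ _ : P.Y.dim ≤ E)]
  unfold gLinv
  simp_rw [h1, h2]
  rw [P.prod_exp, P.prod_exp, ← eadd]
  congr 1
  rw [P.ch_real le_rfl]
  have h3 : ∑ m ∈ Icc 2 E, ((-1 : ℝ) ^ m * ((m - 1).factorial : ℝ) * zetaR m) • P.Y.ch m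
      = ∑ m ∈ Icc 2 E, ((-1 : ℝ) ^ m * ((m - 1).factorial : ℝ) * zetaR m) • ∑ k, P.pull k ((P.X k).ch m)
        - ∑ m ∈ Icc 2 E, ∑ j, ((-1 : ℝ) ^ m * zetaR m / (m : ℝ)) • P.L j ^ m := by
    rw [← sum_sub_distrib]
    refine sum_congr rfl fun m hm => ?_
    rw [mem_Icc] at hm
    rw [P.ch_real (by omega), smul_sub, smul_sum (s := univ) (f := fun j => ((m.factorial : ℝ)⁻¹) • P.L j ^ m)]
    congr 1
    refine sum_congr rfl fun j _ => ?_
    rw [smul_smul]
    congr 1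
    obtain ⟨i, rfl⟩ : ∃ i, m = i + 1 := ⟨m - 1, by omega⟩
    rw [Nat.factorial_succ, Nat.add_sub_cancel]
    have : ((i.factorial : ℕ) : ℝ) ≠ 0 := by positivity
    push_cast
    field_simp
  rw [h3, sum_comm (s := Icc 2 E) (t := univ)]
  simp_rw [neg_add, neg_neg, sum_add_distrib, sum_neg_distrib, smul_sum, smul_sub]
  rw [sum_comm (s := Icc 2 E) (t := (univ : Finset κ))]
  simp only [Nat.factorial_one, Nat.cast_one, inv_one, pow_one, one_smul, smul_sum]
  abel

/-- The main limit. -/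
theorem main_limit (hτ : TauLe P.a P.r) (hgood : ∀ k, (P.X k).Good)
    (hWint : ∀ (b : ℝ) (δ T : κ → ℝ), 0 < b → b * Fintype.card κ ≤ 1 / 2 → (∀ k, 0 ≤ δ k) → (∀ k, 0 < T k) →
      ∀ t : ℝ, 0 < t → IntegrableOn (W P.a P.r b δ T t) (pos ι))
    (hbad : ∀ (b : ℝ) (δ T : κ → ℝ), 0 < b → b * Fintype.card κ ≤ 1 / 2 → (∀ k, 0 ≤ δ k) → (∀ k, 0 < T k) →
      ∀ R e : ℝ, 0 < e → ∀ᶠ t : ℝ in atTop, ∫ s in pos ι ∩ {s | ∃ k, tau P.a P.r t k s ≤ R},
        W P.a P.r b δ T t s ≤ e * ∫ s in pos ι, W P.a P.r b δ T t s) :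
    ∃ ν : ℝ → ℂ, Tendsto (fun t => ν t • P.Y.Jfun t) atTop (𝓝 P.Y.gammaClass) := by
  obtain ⟨g, hg⟩ := P.J_rep hτ
  choose T hT c hc hlim using fun k => (P.X k).good_asymp (hgood k)
  set b : ℝ := 1 / (2 * (Fintype.card κ + 1)) with hb
  have hb0 : 0 < b := by positivity
  have hbK : b * Fintype.card κ ≤ 1 / 2 := by
    rw [hb, div_mul_eq_mul_div, one_mul, div_le_div_iff₀ (by positivity) (by norm_num)]
    linarith
  set δ : κ → ℝ := fun k => ((P.X k).dim : ℝ) / 2 with hδ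
  have hδ0 : ∀ k, 0 ≤ δ k := fun k => by positivity
  have hml := fun k => (P.X k).maj_lim hb0 (hlim k)
  choose M hM0 hM using fun k => (P.X k).maj_bound hb0 (hδ0 k) (hT k) (hml k)
  choose C hC0 hC using fun k => P.pull_bound k
  have hlap := lap P.a P.r b δ T (fun k x => P.pull k ((P.X k).Jfun x))
    (fun k => P.pull k (c k • (P.X k).gammaClass)) (M := ∑ k, C k * M k)
    (sum_nonneg fun k _ => mul_nonneg (hC0 k) (hM0 k))
    (fun k => (P.pull_cont k).comp_continuousOn (P.X k).cont_Jfun)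
    (fun k x hx => by
      have hm := maj_pos b (δ k) (T k) hx
      refine (hC k _).trans ?_
      calc C k * ‖(P.X k).Jfun x‖ ≤ C k * (M k * maj b (δ k) (T k) x) :=
            mul_le_mul_of_nonneg_left (hM k x hx) (hC0 k)
        _ = (C k * M k) * maj b (δ k) (T k) x := by ring
        _ ≤ (∑ k, C k * M k) * maj b (δ k) (T k) x :=
            mul_le_mul_of_nonneg_right (single_le_sum (f := fun k => C k * M k)
              (fun k _ => mul_nonneg (hC0 k) (hM0 k)) (mem_univ k)) hm.le)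
    (fun k => by
      have h1 := ((P.pull_cont k).tendsto _).comp (hml k)
      refine h1.congr fun x => ?_
      simp only [Function.comp_apply]
      rw [P.pull_smul])
    (hWint b δ T hb0 hbK hδ0 hT) (hbad b δ T hb0 hbK hδ0 hT)
  have h1 : ∏ k, P.pull k (c k • (P.X k).gammaClass) = (∏ k, c k) • ∏ k, P.pull k ((P.X k).gammaClass) := by
    rw [← prod_smul]
    refine prod_congr rfl fun k _ => ?_
    rw [map_smul]
  rw [h1] at hlap
  have hcp : (∏ k, c k) ≠ 0 := prod_ne_zero_iff.2 fun k _ => hc k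
  have h2 := (hlap.const_mul P.gLinv).const_smul ((∏ k, c k)⁻¹)
  have h3 : (∏ k, c k)⁻¹ • (P.gLinv * (∏ k, c k) • ∏ k, P.pull k ((P.X k).gammaClass)) = P.Y.gammaClass := by
    rw [mul_smul_comm, smul_smul, inv_mul_cancel₀ hcp, one_smul, P.gamma_Y]
  rw [h3] at h2
  refine ⟨fun t => (∏ k, c k)⁻¹ * ((((∫ s in pos ι, W P.a P.r b δ T t s)⁻¹ : ℝ) : ℂ) * Complex.exp (g * t)), ?_⟩
  refine h2.congr' ?_
  filter_upwards [eventually_gt_atTop (0 : ℝ)] with t ht
  have h4 : ∀ (w e : ℂ) (J : P.Y.H), P.gLinv * (w • (P.gL * (e • J))) = (w * e) • J := by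
    intro w e J
    rw [mul_smul_comm w, ← mul_assoc, P.gLinv_mul, one_mul, smul_smul]
  rw [← hg t ht, ← P.cs, h4, smul_smul]

/-- From the limit to the statements. -/
theorem conclude {ν : ℝ → ℂ} (h : Tendsto (fun t => ν t • P.Y.Jfun t) atTop (𝓝 P.Y.gammaClass)) :
    Tendsto (fun t => (P.Y.G t)⁻¹ • P.Y.Jfun t) atTop (𝓝 P.Y.gammaClass) ∧
      ∀ u : ℂ, P.Y.SimpleRightmost u → P.Y.PrincipalIsGamma u := by
  have hcont : Continuous P.Y.eps := P.Y.eps.toLinearMap.continuous_of_finiteDimensional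
  have h1 : Tendsto (fun t => ν t * P.Y.G t) atTop (𝓝 1) := by
    have h2 := (hcont.tendsto _).comp h
    rw [P.Y.eps_gamma] at h2
    refine h2.congr fun t => ?_
    simp only [Function.comp_apply]
    rw [map_smul, smul_eq_mul]
    rfl
  constructor
  · have h3 := (h1.inv₀ one_ne_zero).smul h
    rw [inv_one, one_smul] at h3
    refine h3.congr' ?_
    have h4 : ∀ᶠ t in atTop, ν t * P.Y.G t ≠ 0 := h1.eventually_ne one_ne_zero
    filter_upwards [h4] with t ht
    rw [smul_smul]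
    congr 1
    have h5 : ν t ≠ 0 := left_ne_zero_of_mul ht
    rw [mul_inv, mul_comm, ← mul_assoc, mul_inv_cancel₀ h5, one_mul]
  · intro u hu
    obtain ⟨A, hA, h5, h6⟩ := P.Y.asymp u hu
    set p : ℝ → ℂ := fun t => ((t ^ ((P.Y.dim : ℝ) / 2) : ℝ) : ℂ) * Complex.exp (-(u * t)) with hp
    have h7 : Tendsto (fun t => p t • P.Y.Jfun t) atTop (𝓝 A) := h6
    have h8 : Tendsto (fun t => p t * P.Y.G t) atTop (𝓝 (P.Y.eps A)) := by
      have h2 := (hcont.tendsto _).comp h7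
      refine h2.congr fun t => ?_
      simp only [Function.comp_apply]
      rw [map_smul, smul_eq_mul]
      rfl
    have h9 : Tendsto (fun t => p t • P.Y.Jfun t) atTop (𝓝 (P.Y.eps A • P.Y.gammaClass)) := by
      have h10 := ((h8.mul (h1.inv₀ one_ne_zero)).smul h)
      rw [inv_one, mul_one] at h10
      refine h10.congr' ?_
      have h4 : ∀ᶠ t in atTop, ν t * P.Y.G t ≠ 0 := h1.eventually_ne one_ne_zero
      filter_upwards [h4] with t ht
      rw [smul_smul]
      congr 1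
      have h11 : ν t ≠ 0 := left_ne_zero_of_mul ht
      have h12 : P.Y.G t ≠ 0 := right_ne_zero_of_mul ht
      field_simp
    have h13 : A = P.Y.eps A • P.Y.gammaClass := tendsto_nhds_unique h7 h9
    have h14 : P.Y.eps A ≠ 0 := by
      intro h0
      rw [h0, zero_smul] at h13
      exact hA h13
    have h15 : Submodule.span ℂ {A} = Submodule.span ℂ {P.Y.gammaClass} := by
      rw [h13]
      exact Submodule.span_singleton_smul_eq (IsUnit.mk0 _ h14) _
    intro α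
    rw [← h15]
    exact h5 α

end Intersection

end Pool.Agent.H75.GC
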