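import Mathlib

/-!
# MP_f0f0c5 (H75/GC): the comparison function of the Laplace integral

`ι` indexes the hypersurfaces, `κ` the factors, `a j k` are the degrees, `r k` the indices.
-/

namespace Pool.Agent.H75.GC

open MeasureTheory

variable {ι κ : Type*} [Fintype ι] [Fintype κ]

/-- `τ_k(s) = t^(1 - α_k) ∏_j s_j^(a_jk / r_k)`, `α_k = ∑_j a_jk / r_k`. -/
noncomputable def tau (a : ι → κ → ℕ) (r : κ → ℕ) (t : ℝ) (k : κ) (s : ι → ℝ) : ℝ :=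
  t ^ (1 - (∑ j, (a j k : ℝ)) / (r k : ℝ)) * ∏ j, s j ^ ((a j k : ℝ) / (r k : ℝ))

/-- The majorant `(1 + x^(-β)) (1 + x)^(-δ) e^(T x)`. -/
noncomputable def maj (b δ T x : ℝ) : ℝ := (1 + x ^ (-b)) * (1 + x) ^ (-δ) * Real.exp (T * x)

/-- The comparison function `e^(-∑ s_j) ∏_k E_k(τ_k(s))`. -/
noncomputable def W (a : ι → κ → ℕ) (r : κ → ℕ) (b : ℝ) (δ T : κ → ℝ) (t : ℝ) (s : ι → ℝ) : ℝ :=
  Real.exp (-∑ j, s j) * ∏ k, maj b (δ k) (T k) (tau a r t k s)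

/-- The open positive orthant. -/
def pos (ι : Type*) : Set (ι → ℝ) := Set.pi Set.univ fun _ => Set.Ioi 0

end Pool.Agent.H75.GC
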