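import Pool.Agent.H75.GC.Gam
import Pool.Agent.H75.GC.Tau

/-!
# MP_f0f0c5 (H75/GC): the integral representation of the Lefschetz series
-/

namespace Pool.Agent.H75.GC

open Filter Topology NormedSpace Finset MeasureTheory

section Sums

variable {R : Type*} [NormedCommRing R]

theorem norm_prod_le_one {ι : Type*} (s : Finset ι) (f : ι → R) :
    ‖∏ i ∈ s, f i‖ ≤ ‖(1 : R)‖ * ∏ i ∈ s, ‖f i‖ := by
  classical
  induction s using Finset.induction_on with
  | empty => simp
  | insert i s hi ih =>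
    rw [prod_insert hi, prod_insert hi]
    calc ‖f i * ∏ j ∈ s, f j‖ ≤ ‖f i‖ * ‖∏ j ∈ s, f j‖ := norm_mul_le _ _
      _ ≤ ‖f i‖ * (‖(1 : R)‖ * ∏ j ∈ s, ‖f j‖) := mul_le_mul_of_nonneg_left ih (norm_nonneg _)
      _ = _ := by ring

variable [CompleteSpace R]

theorem hasSum_pi_fin (n : ℕ) (u : Fin n → ℕ → R) (hu : ∀ k, Summable fun m => ‖u k m‖) :
    (Summable fun d : Fin n → ℕ => ‖∏ k, u k (d k)‖) ∧
      HasSum (fun d : Fin n → ℕ => ∏ k, u k (d k)) (∏ k, ∑' m, u k m) := by
  induction n with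
  | zero =>
    refine ⟨(hasSum_fintype _).summable, ?_⟩
    convert hasSum_fintype (fun d : Fin 0 → ℕ => ∏ k, u k (d k)) using 1
    simp
  | succ n ih =>
    obtain ⟨h1, h2⟩ := ih (fun k => u k.succ) (fun k => hu k.succ)
    have h3 := (hu 0).mul_norm h1
    have h4 := (hu 0).of_norm.hasSum.mul h2 h3.of_norm
    let e : ℕ × (Fin n → ℕ) ≃ (Fin (n + 1) → ℕ) := Fin.consEquiv (fun _ => ℕ)
    constructor
    · rw [← e.summable_iff]
      refine h3.congr fun p => ?_
      simp only [Function.comp_apply]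
      rw [Fin.prod_univ_succ]
      rfl
    · rw [← e.hasSum_iff, Fin.prod_univ_succ]
      refine h4.congr_fun ?_
      intro p
      simp only [Function.comp_apply]
      rw [Fin.prod_univ_succ]
      rfl

/-- The product of finitely many absolutely convergent series. -/
theorem hasSum_pi {κ : Type*} [Fintype κ] (u : κ → ℕ → R) (hu : ∀ k, Summable fun m => ‖u k m‖) :
    (Summable fun d : κ → ℕ => ‖∏ k, u k (d k)‖) ∧
      HasSum (fun d : κ → ℕ => ∏ k, u k (d k)) (∏ k, ∑' m, u k m) := by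
  classical
  let e := Fintype.equivFin κ
  obtain ⟨h1, h2⟩ := hasSum_pi_fin (Fintype.card κ) (fun k => u (e.symm k)) (fun k => hu _)
  let E : (κ → ℕ) ≃ (Fin (Fintype.card κ) → ℕ) := Equiv.arrowCongr e (Equiv.refl ℕ)
  have hE : ∀ d : κ → ℕ, ∏ k, u (e.symm k) (E d k) = ∏ k, u k (d k) := by
    intro d
    rw [← e.symm.prod_comp]
    rfl
  constructor
  · rw [← E.summable_iff] at h1
    refine h1.congr fun d => ?_
    simp only [Function.comp_apply]
    rw [hE]
  · rw [← E.hasSum_iff] at h2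
    rw [← e.symm.prod_comp]
    refine h2.congr_fun ?_
    intro d
    simp only [Function.comp_apply]
    rw [hE]

end Sums

section Fubini

variable {A : Type*} [NormedCommRing A] [NormedAlgebra ℝ A] [CompleteSpace A]

theorem integral_prod_fin (n : ℕ) (ν : Measure ℝ) [SigmaFinite ν] (f : Fin n → ℝ → A)
    (hf : ∀ i, Integrable (f i) ν) :
    ∫ x : Fin n → ℝ, ∏ i, f i (x i) ∂(Measure.pi fun _ => ν) = ∏ i, ∫ x, f i x ∂ν := by
  induction n with
  | zero => simp [measureReal_def]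
  | succ n ih =>
    have hi := Integrable.fin_nat_prod (μ := fun _ : Fin n => ν) (f := fun i => f i.succ)
      (fun i => hf i.succ)
    calc ∫ x : Fin (n + 1) → ℝ, ∏ i, f i (x i) ∂(Measure.pi fun _ => ν)
        = ∫ x : ℝ × (Fin n → ℝ), f 0 x.1 * ∏ i : Fin n, f i.succ (x.2 i)
            ∂(ν.prod (Measure.pi fun _ => ν)) := by
          rw [← ((measurePreserving_piFinSuccAbove (fun _ : Fin (n + 1) => ν) 0).symm).integral_comp']
          simp_rw [MeasurableEquiv.piFinSuccAbove_symm_apply, Fin.insertNthEquiv,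
            Fin.prod_univ_succ, Fin.insertNth_zero, Equiv.coe_fn_mk, Fin.cons_succ,
            Fin.cons_zero]
          rfl
      _ = (∫ x, f 0 x ∂ν) * ∫ x : Fin n → ℝ, ∏ i : Fin n, f i.succ (x i) ∂(Measure.pi fun _ => ν) :=
          integral_prod_bilin (ContinuousLinearMap.mul ℝ A) (hf 0) hi
      _ = ∏ i, ∫ x, f i x ∂ν := by
          rw [Fin.prod_univ_succ, ih (fun i => f i.succ) (fun i => hf i.succ)]

theorem integral_prod_pi {ι : Type*} [Fintype ι] (ν : Measure ℝ) [SigmaFinite ν] (f : ι → ℝ → A)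
    (hf : ∀ i, Integrable (f i) ν) :
    ∫ x : ι → ℝ, ∏ i, f i (x i) ∂(Measure.pi fun _ => ν) = ∏ i, ∫ x, f i x ∂ν := by
  let e := (Fintype.equivFin ι).symm
  rw [← (measurePreserving_piCongrLeft (fun _ : ι => ν) e).integral_comp']
  simp_rw [← e.prod_comp, MeasurableEquiv.coe_piCongrLeft, Equiv.piCongrLeft_apply_apply]
  exact integral_prod_fin _ ν (fun i => f (e i)) (fun i => hf _)

theorem pos_restrict (ι : Type*) [Fintype ι] :
    (volume : Measure (ι → ℝ)).restrict (pos ι) = Measure.pi fun _ => volume.restrict (Set.Ioi (0 : ℝ)) := by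
  rw [volume_pi, pos, Measure.restrict_pi_pi]

theorem measurableSet_pos (ι : Type*) [Fintype ι] : MeasurableSet (pos ι) :=
  MeasurableSet.univ_pi fun _ => measurableSet_Ioi

end Fubini

section Rep

variable {A : Type*} [NormedCommRing A] [NormedAlgebra ℝ A] [CompleteSpace A]
variable {ι κ : Type*} [Fintype ι] [Fintype κ]

/-- The variable `q_k ∏_j s_j^(a_jk)`. -/
noncomputable def yv (q : κ → ℝ) (a : ι → κ → ℕ) (k : κ) (s : ι → ℝ) : ℝ := q k * ∏ j, s j ^ a j k

omit [Fintype κ] in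
theorem yv_pos {q : κ → ℝ} (hq : ∀ k, 0 < q k) (a : ι → κ → ℕ) (k : κ) {s : ι → ℝ} (hs : s ∈ pos ι) :
    0 < yv q a k s := by
  refine mul_pos (hq k) (prod_pos fun j _ => ?_)
  have : 0 < s j := hs j (Set.mem_univ _)
  positivity

omit [Fintype κ] in
theorem cont_yv (q : κ → ℝ) (a : ι → κ → ℕ) (k : κ) : Continuous (yv q a k) := by
  unfold yv
  fun_prop

/-- The `d`-th term. -/
noncomputable def term (L : ι → A) (c : κ → ℕ → A) (q : κ → ℝ) (a : ι → κ → ℕ) (d : κ → ℕ) (s : ι → ℝ) : A :=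
  (∏ j, Real.exp (-(s j)) • exp (Real.log (s j) • L j)) * ∏ k, ((yv q a k s) ^ d k) • c k (d k)

theorem term_eq (L : ι → A) (c : κ → ℕ → A) (q : κ → ℝ) (a : ι → κ → ℕ) (d : κ → ℕ) (s : ι → ℝ) :
    term L c q a d s = (∏ j, ((Real.exp (-(s j)) * (s j) ^ (∑ k, a j k * d k)) • exp (Real.log (s j) • L j)))
      * ((∏ k, q k ^ d k) • ∏ k, c k (d k)) := by
  have h1 : ∏ k, ((yv q a k s) ^ d k) • c k (d k) = (∏ k, (yv q a k s) ^ d k) • ∏ k, c k (d k) :=
    prod_smul _ _ _
  have h2 : ∏ k, (yv q a k s) ^ d k = (∏ j, (s j) ^ (∑ k, a j k * d k)) * ∏ k, q k ^ d k := by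
    unfold yv
    simp_rw [mul_pow, prod_mul_distrib, ← prod_pow, ← pow_mul]
    rw [Finset.prod_comm, mul_comm]
    congr 1
    refine prod_congr rfl fun j _ => ?_
    rw [prod_pow_eq_pow_sum]
  have h3 : ∏ j, ((Real.exp (-(s j)) * (s j) ^ (∑ k, a j k * d k)) • exp (Real.log (s j) • L j))
      = (∏ j, (s j) ^ (∑ k, a j k * d k)) • ∏ j, Real.exp (-(s j)) • exp (Real.log (s j) • L j) := by
    rw [← prod_smul]
    refine prod_congr rfl fun j _ => ?_
    rw [smul_smul, mul_comm]
  unfold term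
  rw [h1, h2, h3, mul_smul, mul_smul_comm, smul_mul_assoc]

theorem integrable_fac {L : ι → A} {D : ℕ} (hL : ∀ j, L j ^ D = 0) (N : ι → ℕ) :
    IntegrableOn (fun s : ι → ℝ => ∏ j, ((Real.exp (-(s j)) * (s j) ^ N j) • exp (Real.log (s j) • L j)))
      (pos ι) := by
  unfold IntegrableOn
  rw [pos_restrict]
  exact Integrable.fintype_prod (f := fun j (x : ℝ) => (Real.exp (-x) * x ^ N j) • exp (Real.log x • L j))
    (fun j => integrable_gi (hL j) (N j))

theorem integral_term {L : ι → A} {D : ℕ} (hL : ∀ j, L j ^ (D + 1) = 0) (c : κ → ℕ → A) (q : κ → ℝ)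
    (a : ι → κ → ℕ) (d : κ → ℕ) :
    IntegrableOn (term L c q a d) (pos ι) ∧ ∫ s in pos ι, term L c q a d s
      = (∏ k, q k ^ d k) • ((∏ j, (gam D (L j) * ∏ m ∈ range (∑ k, a j k * d k),
        (((m : ℝ) + 1) • (1 : A) + L j))) * ∏ k, c k (d k)) := by
  have h0 := integrable_fac hL (fun j => ∑ k, a j k * d k)
  have h1 : term L c q a d = fun s => (∏ j, ((Real.exp (-(s j)) * (s j) ^ (∑ k, a j k * d k))
      • exp (Real.log (s j) • L j))) * ((∏ k, q k ^ d k) • ∏ k, c k (d k)) := by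
    funext s
    exact term_eq L c q a d s
  rw [h1]
  refine ⟨h0.mul_const _, ?_⟩
  have h2 := ((ContinuousLinearMap.mul ℝ A).flip ((∏ k, q k ^ d k) • ∏ k, c k (d k))).integral_comp_comm h0
  simp only [ContinuousLinearMap.flip_apply, ContinuousLinearMap.mul_apply'] at h2
  rw [h2, pos_restrict]
  have h3 := integral_prod_pi (volume.restrict (Set.Ioi (0 : ℝ)))
    (fun j (x : ℝ) => (Real.exp (-x) * x ^ (∑ k, a j k * d k)) • exp (Real.log x • L j))
    (fun j => integrable_gi (hL j) _)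
  rw [h3]
  have h4 : ∀ j, ∫ x in Set.Ioi (0 : ℝ), (Real.exp (-x) * x ^ (∑ k, a j k * d k)) • exp (Real.log x • L j)
      = gam D (L j) * ∏ m ∈ range (∑ k, a j k * d k), (((m : ℝ) + 1) • (1 : A) + L j) := fun j =>
    gi_formula (hL j) _
  simp_rw [h4]
  rw [mul_smul_comm]

/-- The integral representation. -/
theorem rep {L : ι → A} {D : ℕ} (hL : ∀ j, L j ^ (D + 1) = 0) (c : κ → ℕ → A) {q : κ → ℝ}
    (hq : ∀ k, 0 < q k) (a : ι → κ → ℕ)
    (hc : ∀ k, ∀ y : ℝ, 0 < y → Summable fun n => ‖c k n‖ * y ^ n)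
    {B : ℝ} (hB : ∀ s ∈ pos ι, ∏ k, ∑' n, ‖c k n‖ * (yv q a k s) ^ n ≤ B * ∏ j, Real.exp (s j / 2)) :
    HasSum (fun d : κ → ℕ => (∏ k, q k ^ d k) • ((∏ j, (gam D (L j) * ∏ m ∈ range (∑ k, a j k * d k),
        (((m : ℝ) + 1) • (1 : A) + L j))) * ∏ k, c k (d k)))
      (∫ s in pos ι, (∏ j, Real.exp (-(s j)) • exp (Real.log (s j) • L j))
        * ∏ k, ∑' n, ((yv q a k s) ^ n) • c k n) := by
  have hpos : ∀ᵐ s ∂((volume : Measure (ι → ℝ)).restrict (pos ι)), s ∈ pos ι :=
    ae_restrict_mem (measurableSet_pos ι)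
  choose Cj hCj0 hCj using fun j => norm_pow_le (hL j) (e := 1 / 2) (by norm_num)
  have h1 : ∀ d, ∫ s in pos ι, term L c q a d s = _ := fun d => (integral_term hL c q a d).2
  simp_rw [← h1]
  set bound : (κ → ℕ) → (ι → ℝ) → ℝ := fun d s =>
    (‖(1 : A)‖ * ∏ j, ‖Real.exp (-(s j)) • exp (Real.log (s j) • L j)‖)
      * (‖(1 : A)‖ * ∏ k, (‖c k (d k)‖ * (yv q a k s) ^ d k)) with hbound
  have hyn : ∀ k, ∀ s ∈ pos ι, Summable fun n => ‖(‖c k n‖ * (yv q a k s) ^ n)‖ := by
    intro k s hs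
    refine (hc k _ (yv_pos hq a k hs)).congr fun n => ?_
    rw [Real.norm_of_nonneg]
    have := yv_pos hq a k hs
    positivity
  have hbs : ∀ s ∈ pos ι, HasSum (fun d => bound d s)
      ((‖(1 : A)‖ * ∏ j, ‖Real.exp (-(s j)) • exp (Real.log (s j) • L j)‖)
      * (‖(1 : A)‖ * ∏ k, ∑' n, (‖c k n‖ * (yv q a k s) ^ n))) := by
    intro s hs
    exact ((hasSum_pi _ (fun k => hyn k s hs)).2.mul_left _).mul_left _
  refine hasSum_integral_of_dominated_convergence bound (fun d => (integral_term hL c q a d).1.1) ?_ ?_ ?_ ?_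
  · intro d
    filter_upwards [hpos] with s hs
    unfold term
    refine (norm_mul_le _ _).trans (mul_le_mul (norm_prod_le_one _ _) ?_ (norm_nonneg _) ?_)
    · refine (norm_prod_le_one _ _).trans (le_of_eq ?_)
      congr 1
      refine prod_congr rfl fun k _ => ?_
      rw [norm_smul, Real.norm_of_nonneg (pow_nonneg (yv_pos hq a k hs).le _), mul_comm]
    · exact mul_nonneg (norm_nonneg _) (prod_nonneg fun _ _ => norm_nonneg _)
  · filter_upwards [hpos] with s hs
    exact (hbs s hs).summable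
  · have hdom : IntegrableOn (fun s : ι → ℝ => ‖(1 : A)‖ * ‖(1 : A)‖ * |B| *
        ∏ j, (Cj j * (Real.exp (-(s j / 2)) * ((s j) ^ (1 / 2 : ℝ) + (s j) ^ (-(1 / 2) : ℝ))))) (pos ι) := by
      unfold IntegrableOn
      rw [pos_restrict]
      refine Integrable.const_mul ?_ _
      refine Integrable.fintype_prod (f := fun j (x : ℝ) =>
        Cj j * (Real.exp (-(x / 2)) * (x ^ (1 / 2 : ℝ) + x ^ (-(1 / 2) : ℝ)))) (fun j => ?_)
      refine Integrable.const_mul ?_ _
      have e1 : ∀ e : ℝ, -1 < e → IntegrableOn (fun x : ℝ => Real.exp (-(x / 2)) * x ^ e) (Set.Ioi 0) := by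
        intro e he
        have h2 := integrableOn_rpow_mul_exp_neg_mul_rpow (p := 1) (s := e) (b := 1 / 2) he (by norm_num) (by norm_num)
        refine h2.congr_fun (fun x _ => ?_) measurableSet_Ioi
        simp only [Real.rpow_one]
        rw [mul_comm]
        congr 2
        ring
      have h3 := (e1 (1 / 2) (by norm_num)).add (e1 (-(1 / 2)) (by norm_num))
      refine IntegrableOn.congr_fun h3 (fun x _ => ?_) measurableSet_Ioi
      simp only [Pi.add_apply]
      ring
    refine Integrable.mono' hdom ?_ ?_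
    · have hm : AEStronglyMeasurable (fun s : ι → ℝ =>
          (‖(1 : A)‖ * ∏ j, ‖Real.exp (-(s j)) • exp (Real.log (s j) • L j)‖)
      * (‖(1 : A)‖ * ∏ k, ∑' n, (‖c k n‖ * (yv q a k s) ^ n))) (volume.restrict (pos ι)) := by
        have hF : ∀ k, ContinuousOn (fun s : ι → ℝ => ∑' n, (‖c k n‖ * (yv q a k s) ^ n)) (pos ι) := by
          intro k s hs
          have hys := yv_pos hq a k hs
          refine ContinuousAt.continuousWithinAt ?_
          have hcont : ContinuousOn (fun y : ℝ => ∑' n, (‖c k n‖ * y ^ n)) (Set.Ioo 0 (yv q a k s + 1)) := by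
            refine continuousOn_tsum (u := fun n => ‖c k n‖ * (yv q a k s + 1) ^ n) (fun n => by fun_prop)
              (hc k _ (by linarith)) ?_
            intro n y hy
            rw [Real.norm_of_nonneg (mul_nonneg (norm_nonneg _) (pow_nonneg hy.1.le _))]
            exact mul_le_mul_of_nonneg_left (pow_le_pow_left₀ hy.1.le hy.2.le n) (norm_nonneg _)
          have hat : ContinuousAt (fun y : ℝ => ∑' n, (‖c k n‖ * y ^ n)) (yv q a k s) :=
            hcont.continuousAt (Ioo_mem_nhds hys (by linarith))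
          exact hat.comp (cont_yv q a k).continuousAt
        have hG : ∀ j, ContinuousOn (fun s : ι → ℝ => ‖Real.exp (-(s j)) • exp (Real.log (s j) • L j)‖) (pos ι) := by
          intro j
          refine ContinuousOn.norm (ContinuousOn.smul (by fun_prop) ?_)
          exact (cont_pow (L j)).comp (continuous_apply j).continuousOn (fun s hs => hs j (Set.mem_univ _))
        refine ContinuousOn.aestronglyMeasurable ?_ (measurableSet_pos ι)
        refine ContinuousOn.mul (continuousOn_const.mul ?_) (continuousOn_const.mul ?_)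
        · exact continuousOn_finsetProd _ fun j _ => hG j
        · exact continuousOn_finsetProd _ fun k _ => hF k
      refine hm.congr ?_
      filter_upwards [hpos] with s hs
      exact (hbs s hs).tsum_eq.symm
    · filter_upwards [hpos] with s hs
      rw [(hbs s hs).tsum_eq]
      have hsj : ∀ j, 0 < s j := fun j => hs j (Set.mem_univ _)
      have h4 : ∏ j, ‖Real.exp (-(s j)) • exp (Real.log (s j) • L j)‖
          ≤ ∏ j, (Real.exp (-(s j)) * (Cj j * ((s j) ^ (1 / 2 : ℝ) + (s j) ^ (-(1 / 2) : ℝ)))) := by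
        refine prod_le_prod (fun j _ => norm_nonneg _) fun j _ => ?_
        rw [norm_smul, Real.norm_of_nonneg (Real.exp_pos _).le]
        exact mul_le_mul_of_nonneg_left (hCj j (s j) (hsj j)) (Real.exp_pos _).le
      have h5 : 0 ≤ ∏ k, ∑' n, (‖c k n‖ * (yv q a k s) ^ n) := by
        refine prod_nonneg fun k _ => tsum_nonneg fun n => ?_
        have := yv_pos hq a k hs
        positivity
      have h6 := hB s hs
      have h7 : 0 ≤ ∏ j, ‖Real.exp (-(s j)) • exp (Real.log (s j) • L j)‖ :=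
        prod_nonneg fun _ _ => norm_nonneg _
      have h8 : B * ∏ j, Real.exp (s j / 2) ≤ |B| * ∏ j, Real.exp (s j / 2) :=
        mul_le_mul_of_nonneg_right (le_abs_self _) (prod_nonneg fun _ _ => (Real.exp_pos _).le)
      have h9 : 0 ≤ ∏ j, (Real.exp (-(s j)) * (Cj j * ((s j) ^ (1 / 2 : ℝ) + (s j) ^ (-(1 / 2) : ℝ)))) :=
        h7.trans h4
      rw [Real.norm_of_nonneg (by positivity)]
      calc (‖(1 : A)‖ * ∏ j, ‖Real.exp (-(s j)) • exp (Real.log (s j) • L j)‖)
            * (‖(1 : A)‖ * ∏ k, ∑' n, (‖c k n‖ * (yv q a k s) ^ n))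
          = ‖(1 : A)‖ * ‖(1 : A)‖ * ((∏ j, ‖Real.exp (-(s j)) • exp (Real.log (s j) • L j)‖)
            * ∏ k, ∑' n, (‖c k n‖ * (yv q a k s) ^ n)) := by ring
        _ ≤ ‖(1 : A)‖ * ‖(1 : A)‖ * ((∏ j, (Real.exp (-(s j)) * (Cj j * ((s j) ^ (1 / 2 : ℝ)
              + (s j) ^ (-(1 / 2) : ℝ))))) * (|B| * ∏ j, Real.exp (s j / 2))) := by
            refine mul_le_mul_of_nonneg_left ?_ (by positivity)
            exact mul_le_mul h4 (h6.trans h8) h5 h9
        _ = ‖(1 : A)‖ * ‖(1 : A)‖ * |B| * ((∏ j, (Real.exp (-(s j)) * (Cj j * ((s j) ^ (1 / 2 : ℝ)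
              + (s j) ^ (-(1 / 2) : ℝ))))) * ∏ j, Real.exp (s j / 2)) := by ring
        _ = _ := by
            rw [← prod_mul_distrib]
            congr 1
            refine prod_congr rfl fun j _ => ?_
            have : Real.exp (-(s j / 2)) = Real.exp (-(s j)) * Real.exp (s j / 2) := by
              rw [← Real.exp_add]
              congr 1
              ring
            rw [this]
            ring
  · filter_upwards [hpos] with s hs
    unfold term
    refine HasSum.mul_left _ ?_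
    refine (hasSum_pi (fun k n => ((yv q a k s) ^ n) • c k n) (fun k => ?_)).2
    refine (hc k _ (yv_pos hq a k hs)).congr fun n => ?_
    rw [norm_smul, Real.norm_of_nonneg (pow_nonneg (yv_pos hq a k hs).le _), mul_comm]

end Rep

end Pool.Agent.H75.GC
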