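import Mathlib

/-!
# MP_f0f0c5 (H75/GC): the quantum connection of a Fano manifold, Property `O_A`, the principal
asymptotic class, the Gamma class, and complete intersections in products
-/

namespace Pool.Agent.H75.GC

open Filter Topology NormedSpace

/-- The operator `z^B = exp (log z B)`, `z > 0`. -/
noncomputable def opPow {V : Type} [NormedAddCommGroup V] [NormedSpace ℂ V] (B : V →L[ℂ] V) (z : ℝ) :
    V →L[ℂ] V := exp ((Real.log z : ℂ) • B)

/-- The class `z^x = exp (log z x)`, `z > 0`, in a commutative algebra. -/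
noncomputable def clPow {A : Type} [NormedCommRing A] [NormedAlgebra ℂ A] (x : A) (z : ℝ) : A :=
  exp ((Real.log z : ℂ) • x)

/-- The data of the small quantum connection at `q = 1` and of the `J`-function of a Fano
manifold `X`. -/
structure QData where
  /-- `H^ev(X, ℂ)` with the cup product and any submultiplicative norm -/
  H : Type
  [ring : NormedCommRing H]
  [alg : NormedAlgebra ℂ H]
  [fin : FiniteDimensional ℂ H]
  /-- the complex dimension of `X` -/
  dim : ℕ
  /-- the component in `H^0(X)`, which is the pairing with the class of a point -/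
  eps : H →ₐ[ℂ] ℂ
  /-- the components `ch_k(TX)`, `k ≥ 1`, of the Chern character; `ch 1 = c_1(X)` -/
  ch : ℕ → H
  /-- small quantum multiplication by `c_1(X)` at `q = 1` -/
  Q : H →L[ℂ] H
  /-- the Hodge grading operator `μ` -/
  mu : H →L[ℂ] H
  /-- the fundamental solution `S(z)`, `z > 0` -/
  S : ℝ → H →L[ℂ] H
  /-- the coefficients of Givental's `J`-function, `J_X(t) = t^(c_1) ∑ J_n t^n` -/
  J : ℕ → H

attribute [instance] QData.ring QData.alg QData.fin

namespace QData

variable (X : QData)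

/-- The flat section `S(z) z^(-μ) z^(c_1) α` of the class `α`. -/
noncomputable def sec (α : X.H) (z : ℝ) : X.H := X.S z (opPow (-X.mu) z (clPow (X.ch 1) z * α))

/-- The derivative of a flat section: `z s' = z⁻¹ Q s - μ s`, the value of `s'` for given `s`, `z`. -/
noncomputable def slope (z : ℝ) (s : X.H) : X.H := (z : ℂ)⁻¹ • ((z : ℂ)⁻¹ • X.Q s - X.mu s)

/-- Flatness of the sections `S(z) z^(-μ) z^(c_1) α`. -/
def Flat : Prop := ∀ α : X.H, ∀ z : ℝ, 0 < z → HasDerivAt (X.sec α) (X.slope z (X.sec α z)) z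

/-- Normalisation of the fundamental solution at `z = ∞`: `z^μ S(z) z^(-μ) → id`. -/
def Normalised : Prop :=
  Tendsto (fun z : ℝ => opPow X.mu z * X.S z * opPow (-X.mu) z) atTop (𝓝 1)

/-- Givental's `J`-function `J_X(t) = J_X(c_1(X) log t, 1)`, `t > 0`. -/
noncomputable def Jfun (t : ℝ) : X.H := clPow (X.ch 1) t * ∑' n, ((t : ℂ) ^ n) • X.J n

/-- Growth of the coefficients of the `J`-function. -/
def JBound : Prop := ∃ C R : ℝ, 0 ≤ C ∧ 0 ≤ R ∧ ∀ n, ‖X.J n‖ ≤ C * R ^ n / (n.factorial : ℝ)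

/-- The `J`-function in terms of the fundamental solution:
`J_X(t) = z^(dim / 2) (S(z) z^(-μ) z^(c_1))⁻¹ 1`, `z = 1 / t`. -/
def JFlat : Prop := ∀ t : ℝ, 0 < t →
  X.sec (X.Jfun t) t⁻¹ = (((t⁻¹ : ℝ) ^ ((X.dim : ℝ) / 2) : ℝ) : ℂ) • (1 : X.H)

/-- The quantum period `G_X(t) = ⟨J_X(t), [pt]⟩`. -/
noncomputable def G (t : ℝ) : ℂ := X.eps (X.Jfun t)

/-- The `A`-model conifold value `limsup |a_n|^(1/n)`, `G_X(t) = ∑ a_n t^n / n!`. -/
noncomputable def TAcon : ℝ :=
  limsup (fun n : ℕ => ‖(n.factorial : ℂ) * X.eps (X.J n)‖ ^ (1 / (n : ℝ))) atTop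

/-- `u` is a simple rightmost eigenvalue of quantum multiplication by `c_1`. -/
def SimpleRightmost (u : ℂ) : Prop :=
  (X.Q.toLinearMap.charpoly).rootMultiplicity u = 1 ∧
    ∀ v : ℂ, Module.End.HasEigenvalue X.Q.toLinearMap v → v ≠ u → v.re < u.re

/-- Property `O_A`. -/
def PropertyOA : Prop := X.SimpleRightmost (X.TAcon : ℂ)

/-- The class `α` has the smallest asymptotics: `e^(u/z) s(z)` has moderate growth as `z → 0`. -/
def Principal (u : ℂ) (α : X.H) : Prop :=
  ∃ (N : ℕ) (C : ℝ), ∀ z : ℝ, 0 < z → z ≤ 1 →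
    ‖Complex.exp (u / z) • X.sec α z‖ ≤ C * (z⁻¹) ^ N

/-- The normalised `J`-function `t^(dim / 2) e^(- u t) J_X(t)`. -/
noncomputable def Jnorm (u : ℂ) (t : ℝ) : X.H :=
  (((t ^ ((X.dim : ℝ) / 2) : ℝ) : ℂ) * Complex.exp (-(u * t))) • X.Jfun t

/-- The statement of the theorem of Galkin, Golyshev and Iritani: if `u` is a simple rightmost
eigenvalue of quantum multiplication by `c_1`, the classes whose flat sections have the smallest
asymptotics form a line, and `t^(dim / 2) e^(- u t) J_X(t)` converges to a generator of it. -/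
def Asymp : Prop := ∀ u : ℂ, X.SimpleRightmost u → ∃ A : X.H, A ≠ 0 ∧
  (∀ α : X.H, X.Principal u α ↔ α ∈ Submodule.span ℂ {A}) ∧ Tendsto (X.Jnorm u) atTop (𝓝 A)

/-- The Gamma class
`exp (- C_eu c_1 + ∑_{k ≥ 2} (-1)^k (k - 1)! ζ(k) ch_k(TX))`. -/
noncomputable def gammaClass : X.H :=
  exp (-((Real.eulerMascheroniConstant : ℂ) • X.ch 1)
    + ∑ k ∈ Finset.Icc 2 X.dim, ((-1 : ℂ) ^ k * ((k - 1).factorial : ℂ) * riemannZeta k) • X.ch k)

/-- The principal asymptotic class at the eigenvalue `u` is the Gamma class, `[A_X] = [Γ_X]`: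
the classes of smallest asymptotics are the multiples of the Gamma class. -/
def PrincipalIsGamma (u : ℂ) : Prop :=
  ∀ α : X.H, X.Principal u α ↔ α ∈ Submodule.span ℂ {X.gammaClass}

/-- Q1 for the Fano manifold `X`. -/
def Q1 : Prop := X.PropertyOA → X.PrincipalIsGamma (X.TAcon : ℂ)

/-- There is a simple rightmost eigenvalue `T > 0` at which the principal asymptotic class is the
Gamma class. -/
def Good : Prop := ∃ T : ℝ, 0 < T ∧ X.SimpleRightmost (T : ℂ) ∧ X.PrincipalIsGamma (T : ℂ)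

end QData

/-- The small quantum connection and the `J`-function of a Fano manifold `X`: data and
published facts. -/
structure Fano extends QData where
  /-- classes of positive degree are nilpotent -/
  nilp : ∀ x : H, eps x = 0 → x ^ (dim + 1) = 0
  eps_ch : ∀ k, 1 ≤ k → eps (ch k) = 0
  ch_top : ∀ k, dim < k → ch k = 0
  flat : toQData.Flat
  normal : toQData.Normalised
  J_zero : J 0 = 1
  J_bound : toQData.JBound
  J_flat : toQData.JFlat
  /-- Theorem (Galkin, Golyshev, Iritani) -/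
  asymp : toQData.Asymp

/-- The data of a complete intersection `Y ⊂ X_1 × ⋯ × X_K` of sections of line bundles `L_j` with
`c_1(L_j) = ∑_k a_jk h_k`. -/
structure IData (ι κ : Type) where
  /-- the factors -/
  X : κ → Fano
  /-- the complete intersection -/
  Y : Fano
  /-- pull-back `H(X_k) → H(Y)` -/
  pull : ∀ k, (X k).H →ₐ[ℂ] Y.H
  /-- `c_1(X_k)` is divisible by `r_k` -/
  r : κ → ℕ
  h : ∀ k, (X k).H
  /-- the degrees -/
  a : ι → κ → ℕ

namespace IData

variable {ι κ : Type} [Fintype ι] [Fintype κ] (P : IData ι κ)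

/-- The pulled back class `h_k`. -/
noncomputable def hh (k : κ) : P.Y.H := P.pull k (P.h k)

/-- The class of the `j`-th hypersurface, `∑_k a_jk h_k`. -/
noncomputable def L (j : ι) : P.Y.H := ∑ k, (P.a j k : ℂ) • P.hh k

/-- The class `c_1(Y) = ∑_k (r_k - ∑_j a_jk) h_k`. -/
noncomputable def cc : P.Y.H := ∑ k, ((P.r k : ℂ) - ∑ j, (P.a j k : ℂ)) • P.hh k

/-- The tangent bundle sequence, `ch_m(TY) = ∑_k ch_m(TX_k) - ∑_j L_j^m / m!`. -/
def ChEq : Prop := ∀ m, 1 ≤ m → P.Y.ch m = ∑ k, P.pull k ((P.X k).ch m)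
  - ∑ j, ((m.factorial : ℂ)⁻¹) • P.L j ^ m

/-- The factor `∏_j ∏_{m ≤ L_j(d)} (m + L_j)` of the hypergeometric modification. -/
noncomputable def modif (d : κ → ℕ) : P.Y.H :=
  ∏ j, ∏ m ∈ Finset.range (∑ k, P.a j k * d k), (((m : ℂ) + 1) • (1 : P.Y.H) + P.L j)

/-- The product of the coefficients of the `J`-functions of the factors. -/
noncomputable def Jprod (d : κ → ℕ) : P.Y.H := ∏ k, P.pull k ((P.X k).J (P.r k * d k))

/-- The hypergeometric modification of the product of the `J`-functions of the factors. -/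
noncomputable def Ifun (t : ℝ) : P.Y.H := clPow P.cc t *
  ∑' d : κ → ℕ, ((t : ℂ) ^ (∑ k, (P.r k - ∑ j, P.a j k) * d k)) • (P.modif d * P.Jprod d)

/-- Quantum Lefschetz: `e^(g t) J_Y(t)` is the hypergeometric modification. -/
def Lefschetz : Prop := ∃ g : ℂ, ∀ t : ℝ, 0 < t → Complex.exp (g * t) • P.Y.Jfun t = P.Ifun t

end IData

/-- A smooth complete intersection `Y ⊂ X_1 × ⋯ × X_K` of sections of globally generated line bundles
`L_j`, `c_1(L_j) = ∑_k a_jk h_k`, `c_1(X_k) = r_k h_k`, `∑_j a_jk < r_k`. -/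
structure Intersection (ι κ : Type) [Fintype ι] [Fintype κ] extends IData ι κ where
  c1_eq : ∀ k, (X k).ch 1 = (r k : ℂ) • h k
  /-- the curve classes have `c_1`-degree divisible by `r_k` -/
  J_div : ∀ k n, ¬ r k ∣ n → (X k).J n = 0
  deg : ∀ k, ∑ j, a j k < r k
  dim_eq : Y.dim + Fintype.card ι = ∑ k, (X k).dim
  /-- tangent bundle sequence -/
  ch_eq : toIData.ChEq
  /-- Theorem (quantum Lefschetz with the product formula; Givental, Kim, Lee, Gathmann,
  Coates-Givental; Behrend) -/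
  lefschetz : toIData.Lefschetz

end Pool.Agent.H75.GC
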