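import Pool.Agent.H75.GC.Lap
import Pool.Agent.H75.GC.Def

/-!
# MP_f0f0c5 (H75/GC): the `J`-function of a factor
-/

namespace Pool.Agent.H75.GC

open Filter Topology NormedSpace Finset MeasureTheory

namespace Fano

variable (X : Fano)

theorem nilp_of_eps {x : X.H} (hx : X.eps x = 0) : x ^ (X.dim + 1) = 0 := X.nilp x hx

theorem eps_eq_zero_of_pow {x : X.H} {n : ℕ} (hx : x ^ n = 0) : X.eps x = 0 := by
  have h : (X.eps x) ^ n = 0 := by rw [← map_pow, hx, map_zero]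
  exact eq_zero_of_pow_eq_zero h

theorem cs (l : ℝ) (x : X.H) : ((l : ℝ) : ℂ) • x = l • x := Complex.coe_smul l x

theorem c1_nil : X.ch 1 ^ (X.dim + 1) = 0 := X.nilp _ (X.eps_ch 1 le_rfl)

theorem summable_J (x : ℝ) : Summable fun n => ‖X.J n‖ * |x| ^ n := by
  obtain ⟨C, R, hC, hR, h⟩ := X.J_bound
  refine Summable.of_nonneg_of_le (fun n => by positivity) (fun n => ?_)
    ((Real.summable_pow_div_factorial (R * |x|)).mul_left C)
  calc ‖X.J n‖ * |x| ^ n ≤ C * R ^ n / (n.factorial : ℝ) * |x| ^ n :=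
        mul_le_mul_of_nonneg_right (h n) (by positivity)
    _ = C * ((R * |x|) ^ n / (n.factorial : ℝ)) := by rw [mul_pow]; ring

theorem Jfun_eq {x : ℝ} : X.Jfun x = exp (Real.log x • X.ch 1) * ∑' n, (x ^ n) • X.J n := by
  unfold QData.Jfun clPow
  rw [X.cs]
  congr 1
  refine tsum_congr fun n => ?_
  rw [← X.cs]
  push_cast
  rfl

theorem cont_J : Continuous fun x : ℝ => ∑' n, (x ^ n) • X.J n := by
  rw [continuous_iff_continuousAt]
  intro x
  have hcont : ContinuousOn (fun y : ℝ => ∑' n, (y ^ n) • X.J n) (Set.Ioo (-(|x| + 1)) (|x| + 1)) := by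
    refine continuousOn_tsum (u := fun n => ‖X.J n‖ * (|(|x| + 1)|) ^ n) (fun n => by fun_prop)
      (X.summable_J _) ?_
    intro n y hy
    rw [norm_smul, norm_pow, Real.norm_eq_abs, mul_comm]
    refine mul_le_mul_of_nonneg_left (pow_le_pow_left₀ (abs_nonneg _) ?_ n) (norm_nonneg _)
    rw [abs_of_nonneg (by positivity : 0 ≤ |x| + 1)]
    exact abs_le.2 ⟨hy.1.le, hy.2.le⟩
  refine hcont.continuousAt (Ioo_mem_nhds ?_ ?_)
  · linarith [neg_abs_le x]
  · linarith [le_abs_self x]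

theorem cont_Jfun : ContinuousOn X.Jfun (Set.Ioi 0) := by
  have h : X.Jfun = fun x : ℝ => exp (Real.log x • X.ch 1) * ∑' n, (x ^ n) • X.J n := by
    funext x
    exact X.Jfun_eq
  rw [h]
  exact (cont_pow (X.ch 1)).mul X.cont_J.continuousOn

theorem norm_J_le : ∃ C R : ℝ, 0 ≤ C ∧ 0 ≤ R ∧ ∀ x : ℝ, 0 < x →
    ‖∑' n, (x ^ n) • X.J n‖ ≤ C * Real.exp (R * x) := by
  obtain ⟨C, R, hC, hR, h⟩ := X.J_bound
  refine ⟨C, R, hC, hR, fun x hx => ?_⟩
  have h1 : Summable fun n => ‖(x ^ n) • X.J n‖ := by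
    refine (X.summable_J x).congr fun n => ?_
    rw [norm_smul, norm_pow, Real.norm_eq_abs, mul_comm]
  have h2 := (Real.summable_pow_div_factorial (R * x)).mul_left C
  refine (norm_tsum_le_tsum_norm h1).trans ?_
  refine (h1.tsum_le_tsum (fun n => ?_) h2).trans (le_of_eq ?_)
  · rw [norm_smul, norm_pow, Real.norm_of_nonneg hx.le]
    calc x ^ n * ‖X.J n‖ ≤ x ^ n * (C * R ^ n / (n.factorial : ℝ)) :=
          mul_le_mul_of_nonneg_left (h n) (by positivity)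
      _ = C * ((R * x) ^ n / (n.factorial : ℝ)) := by rw [mul_pow]; ring
  · rw [tsum_mul_left, Real.exp_eq_exp_ℝ, exp_eq_tsum_div]

/-- `maj` and the asymptotics. -/
theorem maj_lim {b δ T : ℝ} (hb : 0 < b) {A : X.H}
    (h : Tendsto (fun t : ℝ => (((t ^ δ : ℝ) : ℂ) * Complex.exp (-((T : ℂ) * t))) • X.Jfun t) atTop (𝓝 A)) :
    Tendsto (fun x : ℝ => (maj b δ T x)⁻¹ • X.Jfun x) atTop (𝓝 A) := by
  have h1 : Tendsto (fun x : ℝ => (1 + x ^ (-b))⁻¹ * ((1 + x⁻¹) ^ δ)) atTop (𝓝 1) := by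
    have e1 : Tendsto (fun x : ℝ => 1 + x ^ (-b)) atTop (𝓝 (1 + 0)) :=
      tendsto_const_nhds.add (tendsto_rpow_neg_atTop hb)
    have e2 : Tendsto (fun x : ℝ => 1 + x⁻¹) atTop (𝓝 (1 + 0)) :=
      tendsto_const_nhds.add tendsto_inv_atTop_zero
    rw [add_zero] at e1 e2
    have e3 := e1.inv₀ one_ne_zero
    have e4 := e2.rpow_const (p := δ) (Or.inl one_ne_zero)
    have e5 := e3.mul e4
    simpa using e5
  have h2 := h1.smul h
  rw [one_smul] at h2
  refine h2.congr' ?_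
  filter_upwards [eventually_gt_atTop (0 : ℝ)] with x hx
  have e1 : ((x ^ δ : ℝ) : ℂ) * Complex.exp (-((T : ℂ) * x)) = ((x ^ δ * Real.exp (-(T * x)) : ℝ) : ℂ) := by
    push_cast
    rfl
  rw [e1, X.cs, smul_smul]
  congr 1
  unfold maj
  have e2 : (1 + x) ^ (-δ) = (x ^ δ * (1 + x⁻¹) ^ δ)⁻¹ := by
    rw [← Real.mul_rpow hx.le (by positivity), Real.rpow_neg (by positivity)]
    congr 2
    field_simp
    ring
  have e3 : Real.exp (-(T * x)) = (Real.exp (T * x))⁻¹ := Real.exp_neg _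
  have e4 : 0 < 1 + x ^ (-b) := by
    have := Real.rpow_pos_of_pos hx (-b)
    linarith
  rw [e2, e3]
  have e5 : 0 < x ^ δ := Real.rpow_pos_of_pos hx _
  have e6 : 0 < (1 + x⁻¹) ^ δ := Real.rpow_pos_of_pos (by positivity) _
  field_simp

theorem maj_bound {b δ T : ℝ} (hb : 0 < b) (hδ : 0 ≤ δ) (hT : 0 < T) {A : X.H}
    (h : Tendsto (fun x : ℝ => (maj b δ T x)⁻¹ • X.Jfun x) atTop (𝓝 A)) :
    ∃ M : ℝ, 0 ≤ M ∧ ∀ x : ℝ, 0 < x → ‖X.Jfun x‖ ≤ M * maj b δ T x := by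
  have h1 := h.eventually (Metric.closedBall_mem_nhds _ (show (0 : ℝ) < 1 by norm_num))
  rw [eventually_atTop] at h1
  obtain ⟨R0, hR0⟩ := h1
  obtain ⟨C1, hC1, hp⟩ := norm_pow_le X.c1_nil hb
  obtain ⟨C2, R, hC2, hR, hJ⟩ := X.norm_J_le
  set R1 : ℝ := max R0 1 with hR1
  have hR1pos : 0 < R1 := lt_of_lt_of_le one_pos (le_max_right _ _)
  set M1 : ℝ := C1 * ((1 + R1) ^ b) * (C2 * Real.exp (R * R1)) * (1 + R1) ^ δ with hM1
  have hM1pos : 0 ≤ M1 := by positivity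
  refine ⟨max (‖A‖ + 1) M1, le_max_of_le_right hM1pos, fun x hx => ?_⟩
  have hm := maj_pos b δ T hx
  rcases le_or_gt R1 x with hx1 | hx1
  · have h2 := hR0 x ((le_max_left _ _).trans hx1)
    rw [dist_eq_norm] at h2
    have h3 : ‖(maj b δ T x)⁻¹ • X.Jfun x‖ ≤ ‖A‖ + 1 := by
      calc ‖(maj b δ T x)⁻¹ • X.Jfun x‖ = ‖A + ((maj b δ T x)⁻¹ • X.Jfun x - A)‖ := by congr 1; abel
        _ ≤ ‖A‖ + ‖(maj b δ T x)⁻¹ • X.Jfun x - A‖ := norm_add_le _ _
        _ ≤ ‖A‖ + 1 := by linarith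
    rw [norm_smul, norm_inv, Real.norm_of_nonneg hm.le, inv_mul_le_iff₀ hm, mul_comm] at h3
    exact h3.trans (mul_le_mul_of_nonneg_right (le_max_left _ _) hm.le)
  · have h2 : ‖X.Jfun x‖ ≤ C1 * (x ^ b + x ^ (-b)) * (C2 * Real.exp (R * x)) := by
      rw [X.Jfun_eq]
      refine (norm_mul_le _ _).trans ?_
      have := hJ x hx
      exact mul_le_mul (hp x hx) this (norm_nonneg _) (by positivity)
    have h3 : x ^ b + x ^ (-b) ≤ (1 + R1) ^ b * (1 + x ^ (-b)) := by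
      have e1 : x ^ b ≤ (1 + R1) ^ b := Real.rpow_le_rpow hx.le (by linarith) hb.le
      have e2 : 1 ≤ (1 + R1) ^ b := Real.one_le_rpow (by linarith) hb.le
      have e3 : 0 < x ^ (-b) := Real.rpow_pos_of_pos hx _
      nlinarith
    have h4 : 1 ≤ (1 + R1) ^ δ * (1 + x) ^ (-δ) := by
      rw [Real.rpow_neg (by linarith)]
      have e1 : (1 + x) ^ δ ≤ (1 + R1) ^ δ := Real.rpow_le_rpow (by linarith) (by linarith) hδ
      have e2 : 0 < (1 + x) ^ δ := Real.rpow_pos_of_pos (by linarith) _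
      rw [← div_eq_mul_inv, le_div_iff₀ e2]
      linarith
    have h5 : 1 ≤ Real.exp (T * x) := Real.one_le_exp (by positivity)
    have h6 : Real.exp (R * x) ≤ Real.exp (R * R1) := by
      apply Real.exp_le_exp.2
      exact mul_le_mul_of_nonneg_left hx1.le hR
    have e3 : 0 < x ^ (-b) := Real.rpow_pos_of_pos hx _
    have e7 : 0 < (1 + x) ^ (-δ) := Real.rpow_pos_of_pos (by linarith) _
    have e8 : 0 < (1 + R1) ^ δ := Real.rpow_pos_of_pos (by linarith) _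
    calc ‖X.Jfun x‖ ≤ C1 * (x ^ b + x ^ (-b)) * (C2 * Real.exp (R * x)) := h2
      _ ≤ C1 * ((1 + R1) ^ b * (1 + x ^ (-b))) * (C2 * Real.exp (R * R1)) := by gcongr
      _ = (C1 * ((1 + R1) ^ b) * (C2 * Real.exp (R * R1))) * (1 + x ^ (-b)) * (1 * 1) := by ring
      _ ≤ (C1 * ((1 + R1) ^ b) * (C2 * Real.exp (R * R1))) * (1 + x ^ (-b))
            * (((1 + R1) ^ δ * (1 + x) ^ (-δ)) * Real.exp (T * x)) := by
          refine mul_le_mul_of_nonneg_left ?_ (by positivity)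
          exact mul_le_mul h4 h5 zero_le_one (by positivity)
      _ = M1 * maj b δ T x := by
          rw [hM1]
          unfold maj
          ring
      _ ≤ max (‖A‖ + 1) M1 * maj b δ T x := mul_le_mul_of_nonneg_right (le_max_right _ _) hm.le

theorem eps_exp {x : X.H} (hx : X.eps x = 0) : X.eps (exp x) = 1 := by
  have h := exp_nil (X.nilp x hx)
  rw [h, map_sum, sum_range_succ']
  have h2 : ∀ i ∈ range X.dim, X.eps ((((i + 1).factorial : ℝ)⁻¹) • x ^ (i + 1)) = 0 := by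
    intro i _
    rw [← X.cs, map_smul, map_pow, hx, zero_pow (by omega), smul_zero]
  rw [sum_eq_zero h2, zero_add, ← X.cs, map_smul, pow_zero, map_one]
  simp

theorem eps_gamma : X.eps X.gammaClass = 1 := by
  unfold QData.gammaClass
  refine X.eps_exp ?_
  rw [map_add, map_neg, map_smul, X.eps_ch 1 le_rfl, smul_zero, neg_zero, zero_add, map_sum]
  refine sum_eq_zero fun k hk => ?_
  rw [map_smul, X.eps_ch k (by rw [mem_Icc] at hk; omega), smul_zero]

theorem gamma_ne : X.gammaClass ≠ 0 := by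
  intro h
  have := X.eps_gamma
  rw [h, map_zero] at this
  exact zero_ne_one this

/-- The asymptotics of a good factor. -/
theorem good_asymp (hX : X.Good) : ∃ T : ℝ, 0 < T ∧ ∃ c : ℂ, c ≠ 0 ∧
    Tendsto (fun t : ℝ => (((t ^ ((X.dim : ℝ) / 2) : ℝ) : ℂ) * Complex.exp (-((T : ℂ) * t))) • X.Jfun t)
      atTop (𝓝 (c • X.gammaClass)) := by
  obtain ⟨T, hT, hS, hP⟩ := hX
  obtain ⟨A, hA, h1, h2⟩ := X.asymp T hS
  have h3 : A ∈ Submodule.span ℂ {X.gammaClass} := by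
    rw [← hP A]
    exact (h1 A).2 (Submodule.mem_span_singleton_self A)
  obtain ⟨c, hc⟩ := Submodule.mem_span_singleton.1 h3
  refine ⟨T, hT, c, ?_, ?_⟩
  · rintro rfl
    rw [zero_smul] at hc
    exact hA hc.symm
  · rw [hc]
    exact h2

end Fano

end Pool.Agent.H75.GC
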