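import Pool.Agent.H75.GC.Nil

/-!
# MP_f0f0c5 (H75/GC): the Gamma integral for nilpotent elements

`∫ s in (0, ∞), e^{-s} s^n exp (log s • x) = Γ(1 + x) ∏_{m ≤ n} (m + x)` for nilpotent `x`.
-/

namespace Pool.Agent.H75.GC

open Filter Topology NormedSpace Finset MeasureTheory Set

variable {A : Type*} [NormedCommRing A] [NormedAlgebra ℝ A] [CompleteSpace A]

theorem exp_abs_log_le {s : ℝ} (hs : 0 < s) (e : ℝ) :
    Real.exp (e * |Real.log s|) ≤ s ^ e + s ^ (-e) := by
  rw [Real.rpow_def_of_pos hs, Real.rpow_def_of_pos hs]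
  rcases abs_cases (Real.log s) with ⟨h, _⟩ | ⟨h, _⟩ <;> rw [h]
  · rw [mul_comm e]
    exact le_add_of_nonneg_right (Real.exp_pos _).le
  · rw [mul_neg, mul_comm e, ← mul_neg]
    exact le_add_of_nonneg_left (Real.exp_pos _).le

/-- Bound of `s^x` for nilpotent `x`. -/
theorem norm_pow_le {x : A} {D : ℕ} (hx : x ^ D = 0) {e : ℝ} (he : 0 < e) :
    ∃ C : ℝ, 0 ≤ C ∧ ∀ s : ℝ, 0 < s → ‖exp (Real.log s • x)‖ ≤ C * (s ^ e + s ^ (-e)) := by
  obtain ⟨C, hC, h⟩ := norm_exp_smul_le hx he
  exact ⟨C, hC, fun s hs => (h _).trans (mul_le_mul_of_nonneg_left (exp_abs_log_le hs e) hC)⟩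

theorem int_pow (m : ℕ) : ∫ s in Ioi (0 : ℝ), Real.exp (-s) * s ^ m = (m.factorial : ℝ) := by
  have h := Real.Gamma_eq_integral (s := (m : ℝ) + 1) (by positivity)
  rw [Real.Gamma_nat_eq_factorial] at h
  rw [h]
  refine setIntegral_congr_fun measurableSet_Ioi fun s _ => ?_
  simp

theorem integrable_pow (m : ℕ) : IntegrableOn (fun s : ℝ => Real.exp (-s) * s ^ m) (Ioi 0) := by
  have h := Real.GammaIntegral_convergent (s := (m : ℝ) + 1) (by positivity)
  refine h.congr_fun (fun s _ => ?_) measurableSet_Ioi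
  simp

theorem integrable_rpow {e : ℝ} (he : -1 < e) (m : ℕ) :
    IntegrableOn (fun s : ℝ => Real.exp (-s) * s ^ m * s ^ e) (Ioi 0) := by
  have h := Real.GammaIntegral_convergent (s := (m : ℝ) + e + 1) (by
    have : (0 : ℝ) ≤ (m : ℝ) := Nat.cast_nonneg m
    linarith)
  refine h.congr_fun (fun s hs => ?_) measurableSet_Ioi
  have hs' : (0 : ℝ) < s := hs
  simp only [add_sub_cancel_right]
  rw [Real.rpow_add hs', Real.rpow_natCast, mul_assoc]

theorem cont_pow (x : A) : ContinuousOn (fun s : ℝ => exp (Real.log s • x)) (Ioi 0) := by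
  refine econt.comp_continuousOn ?_
  refine ContinuousOn.smul ?_ continuousOn_const
  exact Real.continuousOn_log.mono fun s hs => by
    have : (0 : ℝ) < s := hs
    simp [this.ne']

theorem integrable_gi {x : A} {D : ℕ} (hx : x ^ D = 0) (n : ℕ) :
    IntegrableOn (fun s : ℝ => (Real.exp (-s) * s ^ n) • exp (Real.log s • x)) (Ioi 0) := by
  obtain ⟨C, hC, h⟩ := norm_pow_le hx (e := 1 / 2) (by norm_num)
  have h1 := (integrable_rpow (e := 1 / 2) (by norm_num) n).add
    (integrable_rpow (e := -(1 / 2)) (by norm_num) n)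
  refine Integrable.mono' (h1.const_mul C) ?_ ?_
  · refine ContinuousOn.aestronglyMeasurable ?_ measurableSet_Ioi
    exact (by fun_prop : Continuous fun s : ℝ => Real.exp (-s) * s ^ n).continuousOn.smul (cont_pow x)
  · filter_upwards [ae_restrict_mem measurableSet_Ioi] with s hs
    have hs' : (0 : ℝ) < s := hs
    rw [norm_smul, Real.norm_of_nonneg (by positivity)]
    calc Real.exp (-s) * s ^ n * ‖exp (Real.log s • x)‖
        ≤ Real.exp (-s) * s ^ n * (C * (s ^ (1 / 2 : ℝ) + s ^ (-(1 / 2) : ℝ))) :=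
          mul_le_mul_of_nonneg_left (h s hs') (by positivity)
      _ = _ := by simp only [Pi.add_apply]; ring

/-- The Gamma integral. -/
noncomputable def gi (n : ℕ) (x : A) : A :=
  ∫ s in Ioi (0 : ℝ), (Real.exp (-s) * s ^ n) • exp (Real.log s • x)

theorem gi_succ {x : A} {D : ℕ} (hx : x ^ D = 0) (n : ℕ) :
    gi (n + 1) x = (((n : ℝ) + 1) • (1 : A) + x) * gi n x := by
  obtain ⟨C, hC, h⟩ := norm_pow_le hx (e := 1 / 2) (by norm_num)
  set f : ℝ → A := fun s => (Real.exp (-s) * s ^ (n + 1)) • exp (Real.log s • x) with hf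
  set g : ℝ → A := fun s => (Real.exp (-s) * s ^ n) • exp (Real.log s • x) with hg
  have hderiv : ∀ s ∈ Ioi (0 : ℝ), HasDerivAt f ((((n : ℝ) + 1) • (1 : A) + x) * g s - f s) s := by
    intro s hs
    have hs' : (0 : ℝ) < s := hs
    have h1 : HasDerivAt (fun s : ℝ => exp (Real.log s • x))
        (exp (Real.log s • x) * (s⁻¹ • x)) s := by
      have h2 := (hasFDerivAt_exp (𝕂 := ℝ) (x := Real.log s • x)).comp_hasDerivAt s
        ((Real.hasDerivAt_log hs'.ne').smul_const x)
      have h3 : (exp (Real.log s • x) • (1 : A →L[ℝ] A)) (s⁻¹ • x)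
          = exp (Real.log s • x) * (s⁻¹ • x) := by simp
      rw [h3] at h2
      exact h2
    have h4 : HasDerivAt (fun s : ℝ => Real.exp (-s) * s ^ (n + 1))
        (-(Real.exp (-s) * s ^ (n + 1)) + Real.exp (-s) * (((n : ℝ) + 1) * s ^ n)) s := by
      have h5 : HasDerivAt (fun s : ℝ => Real.exp (-s)) (-Real.exp (-s)) s := by
        have := (hasDerivAt_neg s).exp
        simpa using this
      have h6 : HasDerivAt (fun s : ℝ => s ^ (n + 1)) (((n : ℝ) + 1) * s ^ n) s := by
        have := hasDerivAt_pow (n + 1) s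
        simpa using this
      have h7 := h5.mul h6
      have h8 : -Real.exp (-s) * s ^ (n + 1) + Real.exp (-s) * (((n : ℝ) + 1) * s ^ n)
          = -(Real.exp (-s) * s ^ (n + 1)) + Real.exp (-s) * (((n : ℝ) + 1) * s ^ n) := by ring
      rw [h8] at h7
      exact h7
    have h9 := h4.smul h1
    have h10 : (Real.exp (-s) * s ^ (n + 1)) • (exp (Real.log s • x) * (s⁻¹ • x))
        + (-(Real.exp (-s) * s ^ (n + 1)) + Real.exp (-s) * (((n : ℝ) + 1) * s ^ n)) • exp (Real.log s • x)
        = (((n : ℝ) + 1) • (1 : A) + x) * g s - f s := by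
      simp only [hf, hg]
      rw [mul_smul_comm, smul_smul]
      have h11 : Real.exp (-s) * s ^ (n + 1) * s⁻¹ = Real.exp (-s) * s ^ n := by
        rw [pow_succ]
        field_simp
      rw [h11, add_mul (((n : ℝ) + 1) • (1 : A)) x, smul_mul_assoc, one_mul, smul_smul, mul_smul_comm _ x,
        mul_comm x, add_smul, neg_smul]
      have h12 : Real.exp (-s) * (((n : ℝ) + 1) * s ^ n) = ((n : ℝ) + 1) * (Real.exp (-s) * s ^ n) := by
        ring
      rw [h12]
      abel
    rw [h10] at h9
    exact h9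
  have hint : IntegrableOn (fun s => (((n : ℝ) + 1) • (1 : A) + x) * g s - f s) (Ioi 0) :=
    ((integrable_gi hx n).const_mul _).sub (integrable_gi hx (n + 1))
  have hbound : ∀ s : ℝ, 0 < s → ‖f s‖ ≤ C * (Real.exp (-s) * s ^ (n + 1) * (s ^ (1 / 2 : ℝ) + s ^ (-(1 / 2) : ℝ))) := by
    intro s hs
    rw [hf]
    simp only
    rw [norm_smul, Real.norm_of_nonneg (by positivity)]
    calc Real.exp (-s) * s ^ (n + 1) * ‖exp (Real.log s • x)‖
        ≤ Real.exp (-s) * s ^ (n + 1) * (C * (s ^ (1 / 2 : ℝ) + s ^ (-(1 / 2) : ℝ))) :=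
          mul_le_mul_of_nonneg_left (h s hs) (by positivity)
      _ = _ := by ring
  have htop : Tendsto f atTop (𝓝 0) := by
    refine squeeze_zero_norm' (a := fun s : ℝ => C * 2 * (s ^ (n + 2) * Real.exp (-s))) ?_ ?_
    · filter_upwards [eventually_ge_atTop (1 : ℝ)] with s hs
      have hs0 : (0 : ℝ) < s := by linarith
      refine (hbound s hs0).trans ?_
      have h1 : s ^ (1 / 2 : ℝ) ≤ s := by
        calc s ^ (1 / 2 : ℝ) ≤ s ^ (1 : ℝ) := Real.rpow_le_rpow_of_exponent_le hs (by norm_num)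
          _ = s := Real.rpow_one s
      have h2 : s ^ (-(1 / 2) : ℝ) ≤ s := by
        calc s ^ (-(1 / 2) : ℝ) ≤ s ^ (1 : ℝ) := Real.rpow_le_rpow_of_exponent_le hs (by norm_num)
          _ = s := Real.rpow_one s
      calc C * (Real.exp (-s) * s ^ (n + 1) * (s ^ (1 / 2 : ℝ) + s ^ (-(1 / 2) : ℝ)))
          ≤ C * (Real.exp (-s) * s ^ (n + 1) * (s + s)) := by gcongr
        _ = C * 2 * (s ^ (n + 2) * Real.exp (-s)) := by ring
    · have := (Real.tendsto_pow_mul_exp_neg_atTop_nhds_zero (n + 2)).const_mul (C * 2)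
      simpa using this
  have hcont : ContinuousWithinAt f (Ici 0) 0 := by
    have hf0 : f 0 = 0 := by simp [hf]
    rw [ContinuousWithinAt, hf0]
    refine squeeze_zero_norm' (a := fun s : ℝ => C * (s ^ (n + 1) * s ^ (1 / 2 : ℝ) + s ^ n * s ^ (1 / 2 : ℝ))) ?_ ?_
    · filter_upwards [self_mem_nhdsWithin] with s hs
      have hs0 : (0 : ℝ) ≤ s := hs
      rcases hs0.eq_or_lt with h0 | h0
      · rw [← h0, hf0, norm_zero]
        positivity
      · refine (hbound s h0).trans ?_
        have h1 : Real.exp (-s) ≤ 1 := by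
          rw [Real.exp_le_one_iff]
          linarith
        have h2 : s * s ^ (-(1 / 2) : ℝ) = s ^ (1 / 2 : ℝ) := by
          nth_rewrite 1 [← Real.rpow_one s]
          rw [← Real.rpow_add h0]
          norm_num
        calc C * (Real.exp (-s) * s ^ (n + 1) * (s ^ (1 / 2 : ℝ) + s ^ (-(1 / 2) : ℝ)))
            ≤ C * (1 * s ^ (n + 1) * (s ^ (1 / 2 : ℝ) + s ^ (-(1 / 2) : ℝ))) := by gcongr
          _ = C * (s ^ (n + 1) * s ^ (1 / 2 : ℝ) + s ^ n * (s * s ^ (-(1 / 2) : ℝ))) := by ring
          _ = _ := by rw [h2]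
    · have hc : Continuous fun s : ℝ => C * (s ^ (n + 1) * s ^ (1 / 2 : ℝ) + s ^ n * s ^ (1 / 2 : ℝ)) := by
        have : Continuous fun s : ℝ => s ^ (1 / 2 : ℝ) := Real.continuous_rpow_const (by norm_num)
        fun_prop
      have h3 := hc.tendsto 0
      have h4 : C * ((0 : ℝ) ^ (n + 1) * (0 : ℝ) ^ (1 / 2 : ℝ) + (0 : ℝ) ^ n * (0 : ℝ) ^ (1 / 2 : ℝ)) = 0 := by
        rw [Real.zero_rpow (by norm_num)]
        simp
      rw [h4] at h3
      exact h3.mono_left nhdsWithin_le_nhds
  have hF := integral_Ioi_of_hasDerivAt_of_tendsto hcont hderiv hint htop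
  have hf0 : f 0 = 0 := by simp [hf]
  rw [hf0, sub_zero, integral_sub ((integrable_gi hx n).const_mul _) (integrable_gi hx (n + 1))] at hF
  have h20 : ∫ s in Ioi (0 : ℝ), (((n : ℝ) + 1) • (1 : A) + x) * g s
      = (((n : ℝ) + 1) • (1 : A) + x) * ∫ s in Ioi (0 : ℝ), g s := by
    have := (ContinuousLinearMap.mul ℝ A (((n : ℝ) + 1) • (1 : A) + x)).integral_comp_comm
      (integrable_gi hx n)
    simp only [ContinuousLinearMap.mul_apply'] at this
    exact this
  rw [h20] at hF
  exact (sub_eq_zero.mp hF).symm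

theorem gi_eq {x : A} {D : ℕ} (hx : x ^ D = 0) (n : ℕ) :
    gi n x = ((n.factorial : ℝ)) • (pf x n * gi 0 x) := by
  induction n with
  | zero => simp [pf]
  | succ n ih =>
    rw [gi_succ hx, ih]
    unfold pf
    rw [prod_range_succ, Nat.factorial_succ]
    push_cast
    have h1 : (((n : ℝ) + 1) • (1 : A) + x) = ((n : ℝ) + 1) • (1 + (((n : ℝ) + 1)⁻¹) • x) := by
      rw [smul_add, smul_smul, mul_inv_cancel₀ (by positivity), one_smul]
    rw [h1, smul_mul_assoc, mul_smul_comm, smul_smul]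
    congr 1
    ring

theorem pow_le_cosh {q : ℕ} (hq : 1 ≤ q) (l : ℝ) :
    l ^ (2 * q) ≤ ((2 * q).factorial : ℝ) * ((Real.exp l + Real.exp (-l)) / 2 - 1) := by
  have h := Real.hasSum_cosh l
  have h1 := sum_le_hasSum ({0, q} : Finset ℕ) (fun i _ => by
    have : (0 : ℝ) ≤ l ^ (2 * i) := by rw [pow_mul]; positivity
    positivity) h
  rw [sum_pair (by omega)] at h1
  rw [Real.cosh_eq] at h1
  simp only [mul_zero, pow_zero, Nat.factorial_zero, Nat.cast_one, div_one] at h1
  have h2 : (0 : ℝ) < ((2 * q).factorial : ℝ) := by positivity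
  have h3 : l ^ (2 * q) / ((2 * q).factorial : ℝ) ≤ (Real.exp l + Real.exp (-l)) / 2 - 1 := by linarith
  rw [div_le_iff₀ h2] at h3
  linarith

/-- Concentration of the Gamma distribution. -/
theorem tendsto_gi {x : A} {D : ℕ} (hx : x ^ D = 0) :
    Tendsto (fun n : ℕ => ((n.factorial : ℝ)⁻¹) • (gi n x * exp (-(Real.log n • x)))) atTop (𝓝 1) := by
  obtain ⟨C, hC, h⟩ := norm_exp_smul_sub_one_le hx
  -- the bound
  have key : ∀ n : ℕ, 1 ≤ n → ‖((n.factorial : ℝ)⁻¹) • (gi n x * exp (-(Real.log n • x))) - 1‖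
      ≤ (C * ∑ i ∈ range D, (1 + ((2 * (i + 1)).factorial : ℝ))) * (n : ℝ) ^ (-(1 / 2) : ℝ) := by
    intro n hn
    have hn0 : (0 : ℝ) < (n : ℝ) := by exact_mod_cast hn
    obtain ⟨k, rfl⟩ : ∃ k, n = k + 1 := ⟨n - 1, by omega⟩
    set N : ℝ := ((k + 1 : ℕ) : ℝ) with hN
    set a : ℝ := N ^ (-(1 / 2) : ℝ) with ha
    have ha0 : 0 < a := Real.rpow_pos_of_pos hn0 _
    have haa : a * a * N = 1 := by
      rw [ha, ← Real.rpow_add hn0]
      norm_num
      rw [Real.rpow_neg_one, inv_mul_cancel₀ hn0.ne']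
    set w : ℝ → ℝ := fun s => (((k + 1).factorial : ℝ))⁻¹ * (Real.exp (-s) * s ^ (k + 1)) with hw
    have hwint : IntegrableOn w (Ioi 0) := (integrable_pow (k + 1)).const_mul _
    have hw1 : ∫ s in Ioi (0 : ℝ), w s = 1 := by
      rw [hw]
      rw [integral_const_mul, int_pow, inv_mul_cancel₀ (by positivity)]
    have hmain : (((k + 1).factorial : ℝ)⁻¹) • (gi (k + 1) x * exp (-(Real.log N • x))) - 1
        = ∫ s in Ioi (0 : ℝ), w s • (exp ((Real.log s - Real.log N) • x) - 1) := by
      have h1 : ∫ s in Ioi (0 : ℝ), w s • (exp ((Real.log s - Real.log N) • x) - 1)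
          = (∫ s in Ioi (0 : ℝ), w s • (exp ((Real.log s - Real.log N) • x)))
            - ∫ s in Ioi (0 : ℝ), w s • (1 : A) := by
        rw [← integral_sub]
        · refine setIntegral_congr_fun measurableSet_Ioi fun s _ => ?_
          simp only [smul_sub]
        · have h2 := ((integrable_gi hx (k + 1)).mul_const (exp (-(Real.log N • x)))).smul
            (((k + 1).factorial : ℝ)⁻¹)
          refine IntegrableOn.congr_fun h2 (fun s _ => ?_) measurableSet_Ioi
          simp only [Pi.smul_apply, hw]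
          rw [sub_smul, sub_eq_add_neg, eadd, smul_mul_assoc, smul_smul]
        · exact hwint.smul_const 1
      rw [h1, integral_smul_const, hw1, one_smul]
      congr 1
      have h3 : ∀ s ∈ Ioi (0 : ℝ), w s • (exp ((Real.log s - Real.log N) • x))
          = (((k + 1).factorial : ℝ)⁻¹) • (((Real.exp (-s) * s ^ (k + 1)) • exp (Real.log s • x))
            * exp (-(Real.log N • x))) := by
        intro s _
        simp only [hw]
        rw [sub_smul, sub_eq_add_neg, eadd, smul_mul_assoc, smul_smul]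
      rw [setIntegral_congr_fun measurableSet_Ioi h3, integral_smul]
      congr 1
      have := (ContinuousLinearMap.mul ℝ A).flip (exp (-(Real.log N • x)))
        |>.integral_comp_comm (integrable_gi hx (k + 1))
      simp only [ContinuousLinearMap.flip_apply, ContinuousLinearMap.mul_apply'] at this
      rw [this]
      rfl
    rw [hmain]
    -- the dominating function
    set B : ℝ → ℝ := fun s => (C * ∑ i ∈ range D, (1 + ((2 * (i + 1)).factorial : ℝ))) * 
      (a * w s + a⁻¹ * ((((k + 1).factorial : ℝ))⁻¹ * (N⁻¹ * (Real.exp (-s) * s ^ (k + 2))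
        + N * (Real.exp (-s) * s ^ k) - 2 * (Real.exp (-s) * s ^ (k + 1)))) / 2) / 2 with hB
    have hBint : IntegrableOn B (Ioi 0) := by
      refine Integrable.div_const (Integrable.const_mul ?_ _) _
      refine (hwint.const_mul a).add (Integrable.div_const (Integrable.const_mul (Integrable.const_mul ?_ _) _) _)
      exact (((integrable_pow (k + 2)).const_mul _).add ((integrable_pow k).const_mul _)).sub
        ((integrable_pow (k + 1)).const_mul _)
    have hBval : ∫ s in Ioi (0 : ℝ), B s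
        ≤ (C * ∑ i ∈ range D, (1 + ((2 * (i + 1)).factorial : ℝ))) * a := by
      have h1 : ∫ s in Ioi (0 : ℝ), (N⁻¹ * (Real.exp (-s) * s ^ (k + 2))
        + N * (Real.exp (-s) * s ^ k) - 2 * (Real.exp (-s) * s ^ (k + 1)))
          = N⁻¹ * ((k + 2).factorial : ℝ) + N * (k.factorial : ℝ) - 2 * ((k + 1).factorial : ℝ) := by
        rw [integral_sub, integral_add, integral_const_mul, integral_const_mul, integral_const_mul,
          int_pow, int_pow, int_pow]
        · exact (integrable_pow (k + 2)).const_mul _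
        · exact (integrable_pow k).const_mul _
        · exact ((integrable_pow (k + 2)).const_mul _).add ((integrable_pow k).const_mul _)
        · exact (integrable_pow (k + 1)).const_mul _
      have h2 : (((k + 1).factorial : ℝ))⁻¹ * (N⁻¹ * ((k + 2).factorial : ℝ) + N * (k.factorial : ℝ)
          - 2 * ((k + 1).factorial : ℝ)) = N⁻¹ := by
        have h3 : ((k + 2).factorial : ℝ) = (N + 1) * ((k + 1).factorial : ℝ) := by
          rw [Nat.factorial_succ (k + 1), hN]
          push_cast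
          ring
        have h4 : ((k + 1).factorial : ℝ) = N * (k.factorial : ℝ) := by
          rw [Nat.factorial_succ, hN]
          push_cast
          ring
        have h5 : (k.factorial : ℝ) ≠ 0 := by positivity
        rw [h3, h4]
        field_simp
        ring
      have h6 : ∫ s in Ioi (0 : ℝ), B s = (C * ∑ i ∈ range D, (1 + ((2 * (i + 1)).factorial : ℝ))) *
          (a * 1 + a⁻¹ * N⁻¹ / 2) / 2 := by
        rw [hB]
        rw [integral_div, integral_const_mul, integral_add (hwint.const_mul a), integral_const_mul, hw1,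
          integral_div, integral_const_mul, integral_const_mul, h1, h2]
        refine Integrable.div_const (Integrable.const_mul (Integrable.const_mul ?_ _) _) _
        exact (((integrable_pow (k + 2)).const_mul _).add ((integrable_pow k).const_mul _)).sub
          ((integrable_pow (k + 1)).const_mul _)
      rw [h6]
      have h7 : a⁻¹ * N⁻¹ = a := by
        have : N⁻¹ = a * a := by
          field_simp
          linarith
        rw [this]
        field_simp
      rw [h7, mul_div_assoc]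
      refine mul_le_mul_of_nonneg_left (by linarith) ?_
      exact mul_nonneg hC (sum_nonneg fun i _ => by positivity)
    refine (norm_integral_le_of_norm_le hBint ?_).trans hBval
    filter_upwards [ae_restrict_mem measurableSet_Ioi] with s hs
    have hs0 : (0 : ℝ) < s := hs
    set l : ℝ := Real.log s - Real.log N with hl
    have hel : Real.exp l = s / N := by
      rw [hl, Real.exp_sub, Real.exp_log hs0, Real.exp_log hn0]
    have heml : Real.exp (-l) = N / s := by
      rw [Real.exp_neg, hel, inv_div]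
    have hwpos : 0 ≤ w s := by
      simp only [hw]
      positivity
    rw [norm_smul, Real.norm_of_nonneg hwpos]
    have h10 : ∀ i ∈ range D, |l| ^ (i + 1) ≤ (1 + ((2 * (i + 1)).factorial : ℝ)) *
        ((a + a⁻¹ * ((s / N + N / s) / 2 - 1)) / 2) := by
      intro i _
      have h11 := pow_le_cosh (q := i + 1) (by omega) l
      rw [hel, heml] at h11
      have h12 : (0 : ℝ) ≤ (s / N + N / s) / 2 - 1 := by
        have h13 : (0 : ℝ) ≤ l ^ (2 * (i + 1)) := by rw [pow_mul]; positivity
        have h14 : (0 : ℝ) < ((2 * (i + 1)).factorial : ℝ) := by positivity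
        by_contra hneg
        push Not at hneg
        have := mul_neg_of_pos_of_neg h14 hneg
        linarith
      have h15 : |l| ^ (i + 1) ≤ (a + a⁻¹ * l ^ (2 * (i + 1))) / 2 := by
        have h16 : l ^ (2 * (i + 1)) = (|l| ^ (i + 1)) ^ 2 := by
          rw [← pow_mul, mul_comm (i + 1) 2, pow_mul, pow_mul, sq_abs]
        rw [h16]
        have h17 : 0 ≤ a⁻¹ * (a - |l| ^ (i + 1)) ^ 2 := by positivity
        have h18 : a⁻¹ * (a - |l| ^ (i + 1)) ^ 2 = a - 2 * |l| ^ (i + 1) + a⁻¹ * (|l| ^ (i + 1)) ^ 2 := by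
          field_simp
          ring
        linarith
      refine h15.trans ?_
      have h19 : a⁻¹ * l ^ (2 * (i + 1)) ≤ a⁻¹ * (((2 * (i + 1)).factorial : ℝ) * ((s / N + N / s) / 2 - 1)) :=
        mul_le_mul_of_nonneg_left h11 (by positivity)
      have h20 : (0 : ℝ) ≤ a⁻¹ * ((s / N + N / s) / 2 - 1) := by positivity
      have h21 : (0 : ℝ) ≤ ((2 * (i + 1)).factorial : ℝ) := by positivity
      have h22 : (0 : ℝ) ≤ ((2 * (i + 1)).factorial : ℝ) * a := by positivity
      nlinarith [h19, h20, h21, h22]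
    have h30 : ‖exp (l • x) - 1‖ ≤ C * ∑ i ∈ range D, ((1 + ((2 * (i + 1)).factorial : ℝ)) *
        ((a + a⁻¹ * ((s / N + N / s) / 2 - 1)) / 2)) :=
      (h l).trans (mul_le_mul_of_nonneg_left (sum_le_sum h10) hC)
    refine (mul_le_mul_of_nonneg_left h30 hwpos).trans (le_of_eq ?_)
    rw [← sum_mul]
    simp only [hB, hw]
    generalize (∑ i ∈ range D, (1 + ((2 * (i + 1)).factorial : ℝ))) = S
    have h31 : s ^ (k + 1) * (s / N) = N⁻¹ * s ^ (k + 2) := by
      field_simp
      ring
    have h32 : s ^ (k + 1) * (N / s) = N * s ^ k := by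
      field_simp
      ring
    have h33 : s ^ (k + 1) * ((s / N + N / s) / 2 - 1) = (N⁻¹ * s ^ (k + 2) + N * s ^ k - 2 * s ^ (k + 1)) / 2 := by
      rw [← h31, ← h32]
      ring
    calc (((k + 1).factorial : ℝ))⁻¹ * (Real.exp (-s) * s ^ (k + 1)) *
          (C * (S * ((a + a⁻¹ * ((s / N + N / s) / 2 - 1)) / 2)))
        = C * S * (a * ((((k + 1).factorial : ℝ))⁻¹ * (Real.exp (-s) * s ^ (k + 1)))
          + a⁻¹ * ((((k + 1).factorial : ℝ))⁻¹ * Real.exp (-s)
            * (s ^ (k + 1) * ((s / N + N / s) / 2 - 1)))) / 2 := by ring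
      _ = _ := by
        rw [h33]
        ring
  rw [tendsto_iff_norm_sub_tendsto_zero]
  refine squeeze_zero' (Eventually.of_forall fun _ => norm_nonneg _) ?_ (g := fun n : ℕ =>
    (C * ∑ i ∈ range D, (1 + ((2 * (i + 1)).factorial : ℝ))) * (n : ℝ) ^ (-(1 / 2) : ℝ)) ?_
  · filter_upwards [eventually_ge_atTop 1] with n hn
    exact key n hn
  · have h1 : Tendsto (fun n : ℕ => (n : ℝ) ^ (-(1 / 2) : ℝ)) atTop (𝓝 0) :=
      (tendsto_rpow_neg_atTop (by norm_num)).comp tendsto_natCast_atTop_atTop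
    simpa using h1.const_mul (C * ∑ i ∈ range D, (1 + ((2 * (i + 1)).factorial : ℝ)))

/-- The integral at `n = 0` is `Γ(1 + x)`. -/
theorem gi_zero {x : A} {D : ℕ} (hx : x ^ (D + 1) = 0) : gi 0 x = gam D x := by
  have h1 := tendsto_gi hx
  have h2 : ∀ n : ℕ, ((n.factorial : ℝ)⁻¹) • (gi n x * exp (-(Real.log n • x)))
      = gi 0 x * (pf x n * exp (-(Real.log n • x))) := by
    intro n
    rw [gi_eq hx n, smul_mul_assoc, smul_smul, inv_mul_cancel₀ (by positivity), one_smul]
    ring
  simp_rw [h2] at h1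
  have h3 := tendsto_pf hx
  have h4 := tendsto_nhds_unique h1 (h3.const_mul (gi 0 x))
  have h5 := emul_neg (A := A) (-(Real.eulerMascheroniConstant • x)
    + ∑ k ∈ Finset.Icc 2 D, ((-1 : ℝ) ^ k * zetaR k / (k : ℝ)) • x ^ k)
  unfold gam
  set E := -(Real.eulerMascheroniConstant • x)
    + ∑ k ∈ Finset.Icc 2 D, ((-1 : ℝ) ^ k * zetaR k / (k : ℝ)) • x ^ k with hE
  calc gi 0 x = gi 0 x * (exp E * exp (-E)) := by rw [h5, mul_one]
    _ = (gi 0 x * exp (-E)) * exp E := by ring
    _ = exp E := by rw [← h4, one_mul]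

/-- The Gamma integral for nilpotent elements. -/
theorem gi_formula {x : A} {D : ℕ} (hx : x ^ (D + 1) = 0) (n : ℕ) :
    gi n x = gam D x * ∏ m ∈ range n, (((m : ℝ) + 1) • (1 : A) + x) := by
  induction n with
  | zero => simp [gi_zero hx]
  | succ n ih =>
    rw [gi_succ hx, ih, prod_range_succ]
    ring

end Pool.Agent.H75.GC
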