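import Pool.Agent.H75.GC.Isol

/-!
# Good varieties: the automorphisms are in the span
-/

noncomputable section

namespace GD

open Complex Module CategoryTheory AlgebraicGeometry

variable (𝓗 : Cohomology)

/-- A square which is the identity modulo the part of abelian type. -/
theorem Cohomology.eigPiece_le_of_sq {N : ℕ} [NeZero N] {S : Str} {g : Module.End ℂ S.W}
    {a : ZMod N} (ha : 3 ≤ addOrderOf a) (h : ∀ x, g (g x) - x ∈ 𝓗.abSpan S) (l : (ZMod N)ˣ) :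
    eigPiece N S g a l ≤ 𝓗.abSpan S := by
  intro x hx
  have h1 : g x = zeta N ^ ((l : ZMod N) * a).val • x := Module.End.mem_eigenspace_iff.1 hx
  set w : ℂ := zeta N ^ ((l : ZMod N) * a).val with hw
  have h2 : g (g x) - x = (w * w - 1) • x := by
    rw [h1, map_smul, h1, smul_smul, sub_smul, one_smul]
  have hne : w * w - 1 ≠ 0 := by
    intro h0
    have h3 : w * w = 1 := sub_eq_zero.1 h0
    rw [hw, ← pow_add, (zeta_prim N).pow_eq_one_iff_dvd, ← ZMod.natCast_eq_zero_iff] at h3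
    push_cast at h3
    rw [ZMod.natCast_zmod_val, ← mul_add] at h3
    have h4 : a + a = 0 := by
      have h5 := congrArg (fun z => ((l⁻¹ : (ZMod N)ˣ) : ZMod N) * z) h3
      simpa using h5
    have h6 : addOrderOf a ≤ 2 := addOrderOf_le_of_nsmul_eq_zero (by norm_num) (by
      rw [two_nsmul, h4])
    omega
  have h3 := (𝓗.abSpan S).smul_mem (w * w - 1)⁻¹ (h x)
  rwa [h2, smul_smul, inv_mul_cancel₀ hne, one_smul] at h3

section

variable (hle : ∀ {S : Str}, Nonempty (Pol S) → ∀ {g : Module.End ℂ S.W}, IsHom S S g →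
    ∀ {N : ℕ} [NeZero N], g ^ N = 1 → ∀ a : ZMod N, (∀ l, eigPiece N S g a l ≤ 𝓗.abSpan S) →
      𝓗.InSpan N S (eigPiece N S g a))
  (h0 : ∀ X, 𝓗.abSpan (𝓗.H X 0) = ⊤) (h1 : ∀ X, 𝓗.abSpan (𝓗.H X 1) = ⊤)

include hle h0 h1

/-- The eigenspaces of the automorphisms in `degAut` are in the span. -/
theorem Cohomology.inSpan_degAut (hF : 𝓗.Facts) {d : ℕ} {X : Var}
    (hd : SmoothOfRelativeDimension d X.X.hom) {n : ℕ} (hn : n ≤ d) {g : Aut X.X} {N : ℕ} [NeZero N]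
    (hgN : g ^ N = 1) (hc : ∀ i, 2 ≤ i → i ≤ d → i ≠ n →
      ∀ x, 𝓗.pull g.hom i (𝓗.pull g.hom i x) - x ∈ 𝓗.abSpan (𝓗.H X i)) (a : ZMod N) :
    𝓗.InSpan N (𝓗.H X n) (eigPiece N (𝓗.H X n) (𝓗.pull g.hom n) a) := by
  intro V _ _ δ hδ hA hB hC
  refine 𝓗.isolate hF hδ hC hd hgN a hn fun i hi hin => ?_
  by_cases ha : 3 ≤ addOrderOf a
  · refine hle (𝓗.polarised X i) (𝓗.pull_hom g.hom i) (𝓗.pull_pow_one hgN i) a ?_ V δ hδ hA hB hC
    intro l
    by_cases hi2 : 2 ≤ i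
    · exact 𝓗.eigPiece_le_of_sq ha (hc i hi2 hi hin) l
    · have hi3 : i = 0 ∨ i = 1 := by omega
      rcases hi3 with rfl | rfl
      · rw [h0]
        exact le_top
      · rw [h1]
        exact le_top
  · exact hδ.eig_real (𝓗.polarised X i) (𝓗.pull_hom g.hom i) (𝓗.pull_pow_one hgN i)
      (Nat.lt_of_not_le ha)

theorem Cohomology.degAut_le_goodAut (hF : 𝓗.Facts) {d : ℕ} {X : Var}
    (hd : SmoothOfRelativeDimension d X.X.hom) {n : ℕ} (hn : n ≤ d) :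
    𝓗.degAut X d n ⊆ 𝓗.goodAut (𝓗.H X n) := by
  rintro u ⟨g, hgf, rfl, hc⟩
  refine ⟨𝓗.pull_hom g.hom n, orderOf g, hgf.orderOf_pos,
    𝓗.pull_pow_one (pow_orderOf_eq_one g) n, fun N _ _ hMN a => ?_⟩
  exact 𝓗.inSpan_degAut hle h0 h1 hF hd hn (orderOf_dvd_iff_pow_eq_one.1 hMN) hc a

/-- The cohomology of a good variety in the degrees from two to the dimension is known. -/
theorem Cohomology.known_of_degAut (hF : 𝓗.Facts) {d : ℕ} {X : Var}
    (hd : SmoothOfRelativeDimension d X.X.hom) {n : ℕ} (hn : n ≤ d) {F : Type} [Field F]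
    {e : F →+* ℂ} (h : ∀ (K : Type) [Field K] [NumberField K] (i : K →+* F),
      (∃ x, (e (i x)).im ≠ 0) → IsGalois ℚ K → IsCyclic (K ≃ₐ[ℚ] K) →
        ∀ κ : K →ₙ+* Module.End ℂ (𝓗.H X n).W, CentralAction κ → ∀ a,
          ∃ y ∈ Submodule.span ℚ (𝓗.degAut X d n), ∀ x, κ a x - y x ∈ 𝓗.abSpan (𝓗.H X n)) :
    𝓗.Known (𝓗.H X n) e := by
  intro K _ _ i him hG hc κ hκ
  right
  intro a
  obtain ⟨y, hy, hyx⟩ := h K i him hG hc κ hκ a
  exact ⟨y, Submodule.span_mono (𝓗.degAut_le_goodAut hle h0 h1 hF hd hn) hy, hyx⟩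

end

end GD
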