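import Pool.Agent.H65.GC.Alt

/-!
# Alternating sums for automorphisms which are not faithful
-/

noncomputable section

namespace GD

open Complex Module CategoryTheory AlgebraicGeometry

section inv

variable {N : ℕ} [NeZero N] {V : Type} [AddCommGroup V]
  {δ : (S : Str) → ((ZMod N)ˣ → Submodule ℂ S.W) → V} {S : Str}

omit [NeZero N] in
theorem isPiece_bot (hP : Nonempty (Pol S)) : IsPiece N S (fun _ => ⊥) where
  pol := hP
  betti _ := bot_le
  deRham _ := bot_le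
  hodge _ := bot_le
  conj _ x hx := by
    rw [Submodule.mem_bot] at hx ⊢
    rw [hx, map_zero]
  rank _ _ := rfl

omit [NeZero N] in
theorem IsInvariant.bot (hδ : IsInvariant N δ) (hP : Nonempty (Pol S)) :
    δ S (fun _ => ⊥) = 0 := by
  have h1 := hδ.add S _ _ (isPiece_bot hP) (isPiece_bot hP) (fun _ => disjoint_bot_left)
  simp only [sup_bot_eq] at h1
  exact left_eq_add.1 h1

omit [NeZero N] in
theorem IsInvariant.subsingleton (hδ : IsInvariant N δ) (hP : Nonempty (Pol S))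
    (h : Subsingleton S.W) (U : (ZMod N)ˣ → Submodule ℂ S.W) : δ S U = 0 := by
  have h1 : U = fun _ => ⊥ := by
    funext l
    exact Subsingleton.elim _ _
  rw [h1]
  exact hδ.bot hP

theorem two_nsmul_of_addOrderOf {a : ZMod N} (ha : addOrderOf a < 3) : a + a = 0 := by
  have h1 : 0 < addOrderOf a := addOrderOf_pos a
  have h2 := addOrderOf_nsmul_eq_zero a
  interval_cases h : addOrderOf a
  · rw [one_nsmul] at h2
    rw [h2, add_zero]
  · rwa [two_nsmul] at h2

theorem IsInvariant.eig_real (hδ : IsInvariant N δ) (hP : Nonempty (Pol S))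
    {g : Module.End ℂ S.W} (hg : IsHom S S g) (hgN : g ^ N = 1) {a : ZMod N}
    (ha : addOrderOf a < 3) : δ S (eigPiece N S g a) = 0 := by
  refine hδ.real S _ (isPiece_eig hP hg hgN a) fun l => ?_
  have h1 : ((-l : (ZMod N)ˣ) : ZMod N) * a = l * a := by
    rw [Units.val_neg, neg_mul, neg_eq_iff_add_eq_zero, ← mul_add, two_nsmul_of_addOrderOf ha,
      mul_zero]
  rw [eigPiece, eigPiece, h1]

end inv

variable (𝓗 : Cohomology)

/-- The alternating sums for all eigenvalues. -/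
theorem Cohomology.alt_zero (hF : 𝓗.Facts) {N : ℕ} [NeZero N] {V : Type} [AddCommGroup V]
    {δ : (S : Str) → ((ZMod N)ˣ → Submodule ℂ S.W) → V} (hδ : IsInvariant N δ)
    (hfaith : ∀ (X : Var) (g : Aut X.X) (a : ZMod N), 3 ≤ addOrderOf a → g ^ addOrderOf a = 1 →
      ∀ n, (∀ i, n ≤ i → Subsingleton (𝓗.H X i).W) →
      ∑ i ∈ Finset.range n,
        (-1 : ℤ) ^ i • δ (𝓗.H X i) (eigPiece N (𝓗.H X i) (𝓗.pull g.hom i) a) = 0)
    (X : Var) {g : Aut X.X} (hg : g ^ N = 1) (a : ZMod N) {n : ℕ}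
    (hn : ∀ i, n ≤ i → Subsingleton (𝓗.H X i).W) :
    ∑ i ∈ Finset.range n,
      (-1 : ℤ) ^ i • δ (𝓗.H X i) (eigPiece N (𝓗.H X i) (𝓗.pull g.hom i) a) = 0 := by
  by_cases ha : 3 ≤ addOrderOf a
  · obtain ⟨r, Y, h, c, hh, hsum⟩ := hF.quotient X g N hg a
    choose m hm using fun k => 𝓗.finite (Y k)
    -- a common bound
    let M : ℕ := n + ∑ k, m k
    have hnM : n ≤ M := Nat.le_add_right _ _
    have hmM : ∀ k, m k ≤ M := fun k =>
      (Finset.single_le_sum (f := m) (fun i _ => Nat.zero_le _) (Finset.mem_univ k)).trans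
        (Nat.le_add_left _ _)
    have h1 : ∑ i ∈ Finset.range n,
        (-1 : ℤ) ^ i • δ (𝓗.H X i) (eigPiece N (𝓗.H X i) (𝓗.pull g.hom i) a) =
        ∑ i ∈ Finset.range M,
        (-1 : ℤ) ^ i • δ (𝓗.H X i) (eigPiece N (𝓗.H X i) (𝓗.pull g.hom i) a) := by
      refine Finset.sum_subset (Finset.range_mono hnM) fun i _ hi => ?_
      rw [hδ.subsingleton (𝓗.polarised X i) (hn i (by
        rw [Finset.mem_range] at hi
        omega)), smul_zero]
    rw [h1]
    have h2 : ∀ i ∈ Finset.range M,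
        (-1 : ℤ) ^ i • δ (𝓗.H X i) (eigPiece N (𝓗.H X i) (𝓗.pull g.hom i) a) =
        ∑ k, c k • ((-1 : ℤ) ^ i • δ (𝓗.H (Y k) i)
          (eigPiece N (𝓗.H (Y k) i) (𝓗.pull (h k).hom i) a)) := by
      intro i _
      rw [hsum V δ hδ i, Finset.smul_sum]
      exact Finset.sum_congr rfl fun k _ => smul_comm _ _ _
    rw [Finset.sum_congr rfl h2, Finset.sum_comm]
    refine Finset.sum_eq_zero fun k _ => ?_
    rw [← Finset.smul_sum, hfaith (Y k) (h k) a ha (hh k) M fun i hi =>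
      hm k i ((hmM k).trans hi), smul_zero]
  · refine Finset.sum_eq_zero fun i _ => ?_
    rw [hδ.eig_real (𝓗.polarised X i) (𝓗.pull_hom g.hom i) (𝓗.pull_pow_one hg i)
      (Nat.lt_of_not_le ha), smul_zero]

/-- The hard Lefschetz theorem for the invariants. -/
theorem Cohomology.lef_eq (hF : 𝓗.Facts) {N : ℕ} [NeZero N] {V : Type} [AddCommGroup V]
    {δ : (S : Str) → ((ZMod N)ˣ → Submodule ℂ S.W) → V} (hδ : IsInvariant N δ) {d : ℕ} {X : Var}
    (hd : SmoothOfRelativeDimension d X.X.hom) {g : Aut X.X} (hg : g ^ N = 1) (a : ZMod N)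
    {i : ℕ} (hi : i < d) :
    δ (𝓗.H X i) (eigPiece N (𝓗.H X i) (𝓗.pull g.hom i) a) =
      δ (𝓗.H X (2 * d - i)) (eigPiece N (𝓗.H X (2 * d - i)) (𝓗.pull g.hom (2 * d - i)) a) := by
  obtain ⟨L, hL, hbij, hc⟩ := hF.lefschetz d X hd g N (NeZero.pos N) hg i hi
  refine hδ.iso _ _ (d - i) L _ _ hL
    (isPiece_eig (𝓗.polarised X i) (𝓗.pull_hom g.hom i) (𝓗.pull_pow_one hg i) a)
    (isPiece_eig (𝓗.polarised X _) (𝓗.pull_hom g.hom _) (𝓗.pull_pow_one hg _) a) fun l => ?_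
  refine ⟨fun x hx => ?_, hbij.1.injOn, fun y hy => ?_⟩
  · have h1 := Module.End.mem_eigenspace_iff.1 hx
    refine Module.End.mem_eigenspace_iff.2 ?_
    rw [← hc, h1, map_smul]
  · obtain ⟨x, rfl⟩ := hbij.2 y
    refine ⟨x, Module.End.mem_eigenspace_iff.2 (hbij.1 ?_), rfl⟩
    have h1 := Module.End.mem_eigenspace_iff.1 hy
    rw [hc, h1, map_smul]

/-- Isolation of one degree. -/
theorem Cohomology.isolate (hF : 𝓗.Facts) {N : ℕ} [NeZero N] {V : Type} [AddCommGroup V]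
    [Module ℚ V] {δ : (S : Str) → ((ZMod N)ˣ → Submodule ℂ S.W) → V} (hδ : IsInvariant N δ)
    (hfaith : ∀ (X : Var) (g : Aut X.X) (a : ZMod N), 3 ≤ addOrderOf a → g ^ addOrderOf a = 1 →
      ∀ n, (∀ i, n ≤ i → Subsingleton (𝓗.H X i).W) →
      ∑ i ∈ Finset.range n,
        (-1 : ℤ) ^ i • δ (𝓗.H X i) (eigPiece N (𝓗.H X i) (𝓗.pull g.hom i) a) = 0)
    {d : ℕ} {X : Var} (hd : SmoothOfRelativeDimension d X.X.hom) {g : Aut X.X} (hg : g ^ N = 1)
    (a : ZMod N) {n : ℕ} (hn : n ≤ d)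
    (h : ∀ i, i ≤ d → i ≠ n → δ (𝓗.H X i) (eigPiece N (𝓗.H X i) (𝓗.pull g.hom i) a) = 0) :
    δ (𝓗.H X n) (eigPiece N (𝓗.H X n) (𝓗.pull g.hom n) a) = 0 := by
  let D : ℕ → V := fun i => δ (𝓗.H X i) (eigPiece N (𝓗.H X i) (𝓗.pull g.hom i) a)
  have hsum : ∑ i ∈ Finset.range (2 * d + 1), (-1 : ℤ) ^ i • D i = 0 :=
    𝓗.alt_zero hF hδ hfaith X hg a fun i hi => hF.top d X hd i (by omega)
  have hL : ∀ i < d, D i = D (2 * d - i) := fun i hi => 𝓗.lef_eq hF hδ hd hg a hi
  have h0 : ∀ i ∈ Finset.range (2 * d + 1), i ≠ n → i ≠ 2 * d - n → D i = 0 := by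
    intro i hi h1 h2
    rw [Finset.mem_range] at hi
    by_cases hid : i ≤ d
    · exact h i hid h1
    · have h3 := hL (2 * d - i) (by omega)
      have h4 : 2 * d - (2 * d - i) = i := by omega
      rw [h4] at h3
      rw [← h3]
      exact h _ (by omega) (by omega)
  change D n = 0
  have h2ne : (2 : ℚ) ≠ 0 := by norm_num
  by_cases hnd : n = d
  · rw [Finset.sum_eq_single n] at hsum
    · have h1 : (-1 : ℤ) ^ n • ((-1 : ℤ) ^ n • D n) = 0 := by rw [hsum, smul_zero]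
      rwa [smul_smul, ← mul_pow, neg_one_mul, neg_neg, one_pow, one_smul] at h1
    · intro i hi h1
      rw [h0 i hi h1 (by omega), smul_zero]
    · intro h1
      rw [Finset.mem_range] at h1
      omega
  · rw [Finset.sum_eq_add n (2 * d - n) (by omega)] at hsum
    · have h1 : (-1 : ℤ) ^ (2 * d - n) = (-1) ^ n := by
        have h5 : (-1 : ℤ) ^ (2 * d - n) * (-1) ^ n = 1 := by
          rw [← pow_add]
          have h6 : 2 * d - n + n = 2 * d := by omega
          rw [h6, pow_mul]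
          simp
        have h7 : (-1 : ℤ) ^ n * (-1) ^ n = 1 := by
          rw [← mul_pow]
          simp
        have h8 : (-1 : ℤ) ^ n ≠ 0 := pow_ne_zero _ (by norm_num)
        exact mul_right_cancel₀ h8 (h5.trans h7.symm)
      rw [← hL n (lt_of_le_of_ne hn hnd), h1, ← smul_add] at hsum
      have h2 : (-1 : ℤ) ^ n • ((-1 : ℤ) ^ n • (D n + D n)) = 0 := by rw [hsum, smul_zero]
      rw [smul_smul, ← mul_pow, neg_one_mul, neg_neg, one_pow, one_smul, ← two_smul ℚ] at h2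
      exact (smul_eq_zero.1 h2).resolve_left h2ne
    · intro i hi h1
      rw [h0 i hi h1.1 h1.2, smul_zero]
    · intro h1
      rw [Finset.mem_range] at h1
      omega
    · intro h1
      rw [Finset.mem_range] at h1
      omega

end GD
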