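import Pool.Agent.H75.GC.Rep

/-!
# MP_f0f0c5 (H75/GC): the limit of the Laplace integral
-/

namespace Pool.Agent.H75.GC

open Filter Topology NormedSpace Finset MeasureTheory

variable {A : Type*} [NormedCommRing A] [NormedAlgebra ℝ A] [CompleteSpace A]
variable {ι κ : Type*} [Fintype ι] [Fintype κ]

theorem maj_pos (b δ T : ℝ) {x : ℝ} (hx : 0 < x) : 0 < maj b δ T x := by
  unfold maj
  have h1 : 0 < x ^ (-b) := Real.rpow_pos_of_pos hx _
  have h2 : 0 < (1 + x) ^ (-δ) := Real.rpow_pos_of_pos (by linarith) _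
  have h3 := Real.exp_pos (T * x)
  positivity

omit [Fintype κ] in
theorem tau_pos (a : ι → κ → ℕ) (r : κ → ℕ) {t : ℝ} (ht : 0 < t) (k : κ) {s : ι → ℝ} (hs : s ∈ pos ι) :
    0 < tau a r t k s := by
  unfold tau
  refine mul_pos (Real.rpow_pos_of_pos ht _) (prod_pos fun j _ => ?_)
  exact Real.rpow_pos_of_pos (hs j (Set.mem_univ _)) _

theorem W_pos (a : ι → κ → ℕ) (r : κ → ℕ) (b : ℝ) (δ T : κ → ℝ) {t : ℝ} (ht : 0 < t) {s : ι → ℝ}
    (hs : s ∈ pos ι) : 0 < W a r b δ T t s := by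
  unfold W
  exact mul_pos (Real.exp_pos _) (prod_pos fun k _ => maj_pos _ _ _ (tau_pos a r ht k hs))

omit [Fintype κ] in
theorem cont_tau (a : ι → κ → ℕ) (r : κ → ℕ) (t : ℝ) (k : κ) : ContinuousOn (tau a r t k) (pos ι) := by
  unfold tau
  refine continuousOn_const.mul (continuousOn_finsetProd _ fun j _ => ?_)
  exact (continuous_apply j).continuousOn.rpow_const
    (fun s hs => Or.inl (ne_of_gt (hs j (Set.mem_univ _))))

omit [Fintype κ] in
theorem meas_tau (a : ι → κ → ℕ) (r : κ → ℕ) (t : ℝ) (k : κ) : Measurable (tau a r t k) := by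
  unfold tau
  fun_prop

theorem meas_bad (a : ι → κ → ℕ) (r : κ → ℕ) (t R : ℝ) :
    MeasurableSet {s : ι → ℝ | ∃ k, tau a r t k s ≤ R} := by
  have h : {s : ι → ℝ | ∃ k, tau a r t k s ≤ R} = ⋃ k, {s | tau a r t k s ≤ R} := by
    ext s
    simp
  rw [h]
  exact MeasurableSet.iUnion fun k => measurableSet_le (meas_tau a r t k) measurable_const

theorem int_W_pos (a : ι → κ → ℕ) (r : κ → ℕ) (b : ℝ) (δ T : κ → ℝ) {t : ℝ} (ht : 0 < t)
    (hint : IntegrableOn (W a r b δ T t) (pos ι)) : 0 < ∫ s in pos ι, W a r b δ T t s := by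
  rw [setIntegral_pos_iff_support_of_nonneg_ae]
  · have h1 : Function.support (W a r b δ T t) ∩ pos ι = pos ι := by
      rw [Set.inter_eq_right]
      intro s hs
      exact (W_pos a r b δ T ht hs).ne'
    rw [h1]
    have hopen : IsOpen (pos ι) := isOpen_set_pi Set.finite_univ fun _ _ => isOpen_Ioi
    refine hopen.measure_pos volume ⟨fun _ => 1, ?_⟩
    intro j _
    simp
  · filter_upwards [ae_restrict_mem (measurableSet_pos ι)] with s hs
    exact (W_pos a r b δ T ht hs).le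
  · exact hint

theorem lap (a : ι → κ → ℕ) (r : κ → ℕ) (b : ℝ) (δ T : κ → ℝ) (j : κ → ℝ → A) (G : κ → A) {M : ℝ}
    (hM : 0 ≤ M) (hcont : ∀ k, ContinuousOn (j k) (Set.Ioi 0))
    (hbd : ∀ k, ∀ x : ℝ, 0 < x → ‖j k x‖ ≤ M * maj b (δ k) (T k) x)
    (hlim : ∀ k, Tendsto (fun x => (maj b (δ k) (T k) x)⁻¹ • j k x) atTop (𝓝 (G k)))
    (hWint : ∀ t : ℝ, 0 < t → IntegrableOn (W a r b δ T t) (pos ι))
    (hbad : ∀ R e : ℝ, 0 < e → ∀ᶠ t : ℝ in atTop, ∫ s in pos ι ∩ {s | ∃ k, tau a r t k s ≤ R},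
      W a r b δ T t s ≤ e * ∫ s in pos ι, W a r b δ T t s) :
    Tendsto (fun t => (∫ s in pos ι, W a r b δ T t s)⁻¹ •
      ∫ s in pos ι, Real.exp (-∑ i, s i) • ∏ k, j k (tau a r t k s)) atTop (𝓝 (∏ k, G k)) := by
  rw [tendsto_iff_norm_sub_tendsto_zero]
  rw [Metric.tendsto_atTop']
  intro e he
  set ρ : κ → ℝ → A := fun k x => (maj b (δ k) (T k) x)⁻¹ • j k x with hρ
  -- the good region
  obtain ⟨R, hR⟩ : ∃ R : ℝ, ∀ x : κ → ℝ, (∀ k, R ≤ x k) → ‖∏ k, ρ k (x k) - ∏ k, G k‖ ≤ e / 3 := by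
    have h1 : Tendsto (fun x : κ → ℝ => ∏ k, ρ k (x k)) atTop (𝓝 (∏ k, G k)) := by
      refine tendsto_finsetProd _ fun k _ => ?_
      refine (hlim k).comp ?_
      exact tendsto_atTop.2 fun c => eventually_atTop.2 ⟨fun _ => c, fun x hx => hx k⟩
    have h2 := h1.eventually (Metric.closedBall_mem_nhds _ (show (0 : ℝ) < e / 3 by positivity))
    rw [eventually_atTop] at h2
    obtain ⟨x0, hx0⟩ := h2
    refine ⟨∑ k, |x0 k|, fun x hx => ?_⟩
    have h3 := hx0 x (fun k => ((le_abs_self _).trans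
      (single_le_sum (f := fun k => |x0 k|) (fun _ _ => abs_nonneg _) (mem_univ k))).trans (hx k))
    rwa [dist_eq_norm] at h3
  set C : ℝ := ‖(1 : A)‖ * M ^ Fintype.card κ + ‖∏ k, G k‖ + 1 with hC
  have hC0 : 0 < C := by positivity
  have hev := hbad R (e / (3 * C)) (by positivity)
  obtain ⟨t0, ht0⟩ := (eventually_atTop.1 (hev.and (eventually_gt_atTop 0)))
  refine ⟨t0, fun t ht => ?_⟩
  obtain ⟨hb1, htpos⟩ := ht0 t ht.le
  set w : ℝ := ∫ s in pos ι, W a r b δ T t s with hw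
  have hw0 : 0 < w := int_W_pos a r b δ T htpos (hWint t htpos)
  set f : (ι → ℝ) → A := fun s => Real.exp (-∑ i, s i) • ∏ k, j k (tau a r t k s) with hf
  have hfeq : ∀ s ∈ pos ι, f s = W a r b δ T t s • ∏ k, ρ k (tau a r t k s) := by
    intro s hs
    simp only [hf, hρ, W]
    rw [prod_smul, smul_smul, mul_assoc, ← prod_mul_distrib]
    have : ∏ k, (maj b (δ k) (T k) (tau a r t k s) * (maj b (δ k) (T k) (tau a r t k s))⁻¹) = 1 := by
      refine prod_eq_one fun k _ => mul_inv_cancel₀ (maj_pos _ _ _ (tau_pos a r htpos k hs)).ne'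
    rw [this, mul_one]
  have hρb : ∀ s ∈ pos ι, ‖∏ k, ρ k (tau a r t k s)‖ ≤ ‖(1 : A)‖ * M ^ Fintype.card κ := by
    intro s hs
    refine (norm_prod_le_one _ _).trans (mul_le_mul_of_nonneg_left ?_ (norm_nonneg _))
    have h1 : ∀ k ∈ (univ : Finset κ), ‖ρ k (tau a r t k s)‖ ≤ M := by
      intro k _
      have h2 := tau_pos a r htpos k hs
      have h3 := maj_pos b (δ k) (T k) h2
      simp only [hρ]
      rw [norm_smul, norm_inv, Real.norm_of_nonneg h3.le, inv_mul_le_iff₀ h3, mul_comm]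
      exact hbd k _ h2
    refine (prod_le_prod (fun k _ => norm_nonneg _) h1).trans ?_
    rw [prod_const, card_univ]
  have hfcont : ContinuousOn f (pos ι) := by
    refine ContinuousOn.smul (by fun_prop) (continuousOn_finsetProd _ fun k _ => ?_)
    exact (hcont k).comp (cont_tau a r t k) (fun s hs => tau_pos a r htpos k hs)
  have hfint : IntegrableOn f (pos ι) := by
    refine Integrable.mono' ((hWint t htpos).const_mul (‖(1 : A)‖ * M ^ Fintype.card κ))
      (hfcont.aestronglyMeasurable (measurableSet_pos ι)) ?_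
    filter_upwards [ae_restrict_mem (measurableSet_pos ι)] with s hs
    rw [hfeq s hs, norm_smul, Real.norm_of_nonneg (W_pos a r b δ T htpos hs).le, mul_comm]
    exact mul_le_mul_of_nonneg_right (hρb s hs) (W_pos a r b δ T htpos hs).le
  set bad : Set (ι → ℝ) := {s | ∃ k, tau a r t k s ≤ R} with hbaddef
  have hmb : MeasurableSet bad := meas_bad a r t R
  have hdiff : ‖(∫ s in pos ι, f s) - w • ∏ k, G k‖ ≤ (e / 3 + C * (e / (3 * C))) * w := by
    have h1 : (∫ s in pos ι, f s) - w • ∏ k, G k = ∫ s in pos ι, (f s - W a r b δ T t s • ∏ k, G k) := by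
      rw [integral_sub hfint ((hWint t htpos).smul_const _), integral_smul_const]
    rw [h1]
    have hgint : IntegrableOn (fun s => e / 3 * W a r b δ T t s
        + C * bad.indicator (W a r b δ T t) s) (pos ι) :=
      ((hWint t htpos).const_mul _).add (((hWint t htpos).indicator hmb).const_mul _)
    have h2 : ‖∫ s in pos ι, (f s - W a r b δ T t s • ∏ k, G k)‖ ≤ ∫ s in pos ι,
        (e / 3 * W a r b δ T t s + C * bad.indicator (W a r b δ T t) s) := by
      refine norm_integral_le_of_norm_le hgint ?_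
      filter_upwards [ae_restrict_mem (measurableSet_pos ι)] with s hs
      have hWs := W_pos a r b δ T htpos hs
      rw [hfeq s hs, ← smul_sub, norm_smul, Real.norm_of_nonneg hWs.le]
      by_cases hsb : s ∈ bad
      · rw [Set.indicator_of_mem hsb]
        have h3 : ‖∏ k, ρ k (tau a r t k s) - ∏ k, G k‖ ≤ C := by
          refine (norm_sub_le _ _).trans ?_
          have := hρb s hs
          rw [hC]
          linarith
        have h4 : W a r b δ T t s * ‖∏ k, ρ k (tau a r t k s) - ∏ k, G k‖ ≤ W a r b δ T t s * C :=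
          mul_le_mul_of_nonneg_left h3 hWs.le
        have h5 : 0 ≤ e / 3 * W a r b δ T t s := by positivity
        linarith
      · rw [Set.indicator_of_notMem hsb, mul_zero, add_zero, mul_comm (e / 3)]
        refine mul_le_mul_of_nonneg_left (hR _ fun k => ?_) hWs.le
        by_contra hlt
        push Not at hlt
        exact hsb ⟨k, hlt.le⟩
    refine h2.trans ?_
    rw [integral_add ((hWint t htpos).const_mul _) (((hWint t htpos).indicator hmb).const_mul _),
      integral_const_mul, integral_const_mul, setIntegral_indicator hmb]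
    have h6 : C * ∫ s in pos ι ∩ bad, W a r b δ T t s ≤ C * (e / (3 * C) * w) :=
      mul_le_mul_of_nonneg_left hb1 hC0.le
    calc _ ≤ e / 3 * w + C * (e / (3 * C) * w) := by linarith
      _ = _ := by ring
  have hfin : ‖w⁻¹ • (∫ s in pos ι, f s) - ∏ k, G k‖ ≤ 2 * e / 3 := by
    have h1 : w⁻¹ • (∫ s in pos ι, f s) - ∏ k, G k = w⁻¹ • ((∫ s in pos ι, f s) - w • ∏ k, G k) := by
      rw [smul_sub, smul_smul, inv_mul_cancel₀ hw0.ne', one_smul]
    rw [h1, norm_smul, norm_inv, Real.norm_of_nonneg hw0.le, inv_mul_le_iff₀ hw0]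
    refine hdiff.trans (le_of_eq ?_)
    field_simp
    ring
  rw [Real.dist_eq, sub_zero, abs_norm]
  linarith

end Pool.Agent.H75.GC
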