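import Pool.Agent.H75.GC.Fac

/-!
# MP_f0f0c5 (H75/GC): the integral representation of the `J`-function of the complete intersection
-/

namespace Pool.Agent.H75.GC

open Filter Topology NormedSpace Finset MeasureTheory

/-- The sublinear growth of `tau` (proved separately). -/
def TauLe {ι κ : Type*} [Fintype ι] [Fintype κ] (a : ι → κ → ℕ) (r : κ → ℕ) : Prop :=
  ∀ e : ℝ, 0 < e → ∃ C : ℝ, 0 ≤ C ∧ ∀ t : ℝ, 0 < t → ∀ s ∈ pos ι, ∀ k, tau a r t k s ≤ e * ∑ j, s j + C * t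

namespace Intersection

variable {ι κ : Type} [Fintype ι] [Fintype κ] (P : Intersection ι κ)

theorem cs (l : ℝ) (x : P.Y.H) : ((l : ℝ) : ℂ) • x = l • x := Complex.coe_smul l x

theorem pull_cont (k : κ) : Continuous (P.pull k) :=
  (P.pull k).toLinearMap.continuous_of_finiteDimensional

theorem pull_smul (k : κ) (l : ℝ) (x : (P.X k).H) : P.pull k (l • x) = l • P.pull k x := by
  rw [← (P.X k).cs, ← P.cs, map_smul]

theorem pull_exp (k : κ) (x : (P.X k).H) : P.pull k (exp x) = exp (P.pull k x) := by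
  let _ : NormedAlgebra ℚ (P.X k).H := NormedAlgebra.restrictScalars ℚ ℝ _
  let _ : NormedAlgebra ℚ P.Y.H := NormedAlgebra.restrictScalars ℚ ℝ _
  exact map_exp (P.pull k) (P.pull_cont k) x

theorem r_pos (k : κ) : 0 < P.r k := lt_of_le_of_lt (Nat.zero_le _) (P.deg k)

theorem eps_h (k : κ) : (P.X k).eps (P.h k) = 0 := by
  have h1 := (P.X k).eps_ch 1 le_rfl
  rw [P.c1_eq k, map_smul, smul_eq_mul] at h1
  rcases mul_eq_zero.1 h1 with h | h
  · exact absurd h (by exact_mod_cast (P.r_pos k).ne')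
  · exact h

theorem eps_hh (k : κ) : P.Y.eps (P.hh k) = 0 := by
  refine P.Y.eps_eq_zero_of_pow (n := (P.X k).dim + 1) ?_
  unfold IData.hh
  rw [← map_pow, (P.X k).nilp _ (P.eps_h k), map_zero]

theorem L_eq (j : ι) : P.L j = ∑ k, (P.a j k : ℝ) • P.hh k := by
  unfold IData.L
  refine sum_congr rfl fun k _ => ?_
  rw [← P.cs]
  push_cast
  rfl

theorem eps_L (j : ι) : P.Y.eps (P.L j) = 0 := by
  unfold IData.L
  rw [map_sum]
  refine sum_eq_zero fun k _ => ?_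
  rw [map_smul, P.eps_hh, smul_zero]

theorem L_nil (j : ι) : P.L j ^ (P.Y.dim + 1) = 0 := P.Y.nilp _ (P.eps_L j)

/-- The coefficients. -/
noncomputable def c (k : κ) (n : ℕ) : P.Y.H := P.pull k ((P.X k).J (P.r k * n))

theorem pull_bound (k : κ) : ∃ C : ℝ, 0 ≤ C ∧ ∀ x, ‖P.pull k x‖ ≤ C * ‖x‖ := by
  let f : (P.X k).H →L[ℂ] P.Y.H := (P.pull k).toLinearMap.toContinuousLinearMap
  exact ⟨‖f‖, norm_nonneg _, fun x => f.le_opNorm x⟩

theorem c_bound (k : κ) : ∃ C R : ℝ, 0 ≤ C ∧ 0 ≤ R ∧ ∀ n,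
    ‖P.c k n‖ ≤ C * R ^ (P.r k * n) / ((P.r k * n).factorial : ℝ) := by
  obtain ⟨C, R, hC, hR, h⟩ := (P.X k).J_bound
  obtain ⟨C', hC', h'⟩ := P.pull_bound k
  refine ⟨C' * C, R, by positivity, hR, fun n => ?_⟩
  unfold c
  refine (h' _).trans ?_
  calc C' * ‖(P.X k).J (P.r k * n)‖
      ≤ C' * (C * R ^ (P.r k * n) / ((P.r k * n).factorial : ℝ)) :=
        mul_le_mul_of_nonneg_left (h _) hC'
    _ = _ := by ring

theorem inj_mul {r : ℕ} (hr : 0 < r) : Function.Injective fun n : ℕ => r * n := fun a b h =>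
  Nat.eq_of_mul_eq_mul_left hr h

theorem c_sum (k : κ) : ∃ C R : ℝ, 0 ≤ C ∧ 0 ≤ R ∧ ∀ x : ℝ, 0 < x →
    (Summable fun n => ‖P.c k n‖ * (x ^ P.r k) ^ n) ∧
      ∑' n, ‖P.c k n‖ * (x ^ P.r k) ^ n ≤ C * Real.exp (R * x) := by
  obtain ⟨C, R, hC, hR, h⟩ := P.c_bound k
  refine ⟨C, R, hC, hR, fun x hx => ?_⟩
  have h1 := Real.summable_pow_div_factorial (R * x)
  have h2 : Summable fun n : ℕ => (R * x) ^ (P.r k * n) / ((P.r k * n).factorial : ℝ) :=
    h1.comp_injective (inj_mul (P.r_pos k))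
  have h3 : ∀ n, ‖P.c k n‖ * (x ^ P.r k) ^ n
      ≤ C * ((R * x) ^ (P.r k * n) / ((P.r k * n).factorial : ℝ)) := by
    intro n
    calc ‖P.c k n‖ * (x ^ P.r k) ^ n
        ≤ C * R ^ (P.r k * n) / ((P.r k * n).factorial : ℝ) * (x ^ P.r k) ^ n :=
          mul_le_mul_of_nonneg_right (h n) (by positivity)
      _ = _ := by
          rw [← pow_mul, mul_pow]
          ring
  have h4 : Summable fun n => ‖P.c k n‖ * (x ^ P.r k) ^ n :=
    Summable.of_nonneg_of_le (fun n => by positivity) h3 (h2.mul_left C)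
  refine ⟨h4, (h4.tsum_le_tsum h3 (h2.mul_left C)).trans ?_⟩
  rw [tsum_mul_left]
  refine mul_le_mul_of_nonneg_left ?_ hC
  have h5 : ∑' n : ℕ, (R * x) ^ (P.r k * n) / ((P.r k * n).factorial : ℝ)
      ≤ ∑' n : ℕ, (R * x) ^ n / (n.factorial : ℝ) :=
    tsum_comp_le_tsum_of_inj h1 (fun n => by positivity) (inj_mul (P.r_pos k))
  refine h5.trans (le_of_eq ?_)
  rw [Real.exp_eq_exp_ℝ, exp_eq_tsum_div]

/-- The parameters `q_k = t^(r_k - a_k)`. -/
noncomputable def q (t : ℝ) (k : κ) : ℝ := t ^ (P.r k - ∑ j, P.a j k)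

theorem tau_pow {t : ℝ} (ht : 0 < t) (k : κ) {s : ι → ℝ} (hs : s ∈ pos ι) :
    (tau P.a P.r t k s) ^ P.r k = yv (P.q t) P.a k s := by
  have hr : (P.r k : ℝ) ≠ 0 := by exact_mod_cast (P.r_pos k).ne'
  unfold tau yv q
  rw [mul_pow, ← prod_pow]
  congr 1
  · rw [← Real.rpow_natCast (t ^ _) (P.r k), ← Real.rpow_mul ht.le, ← Real.rpow_natCast]
    congr 1
    rw [Nat.cast_sub (P.deg k).le]
    push_cast
    field_simp
  · refine prod_congr rfl fun j _ => ?_
    have hsj : 0 < s j := hs j (Set.mem_univ _)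
    rw [← Real.rpow_natCast (s j ^ _) (P.r k), ← Real.rpow_mul hsj.le, ← Real.rpow_natCast]
    congr 1
    field_simp

theorem q_pos {t : ℝ} (ht : 0 < t) (k : κ) : 0 < P.q t k := by
  unfold q
  positivity

theorem c_summable (k : κ) {y : ℝ} (hy : 0 < y) : Summable fun n => ‖P.c k n‖ * y ^ n := by
  obtain ⟨C, R, _, _, h⟩ := P.c_sum k
  have h1 : (y ^ ((P.r k : ℝ)⁻¹)) ^ P.r k = y := Real.rpow_inv_natCast_pow hy.le (P.r_pos k).ne'
  have h2 := (h (y ^ ((P.r k : ℝ)⁻¹)) (Real.rpow_pos_of_pos hy _)).1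
  rwa [h1] at h2

/-- The `J`-function of a factor, pulled back to `Y`. -/
theorem pull_Jfun (k : κ) {x : ℝ} (hx : 0 < x) : P.pull k ((P.X k).Jfun x)
    = exp (Real.log (x ^ P.r k) • P.hh k) * ∑' n, ((x ^ P.r k) ^ n) • P.c k n := by
  rw [(P.X k).Jfun_eq, map_mul, P.pull_exp, P.pull_smul]
  have h1 : P.pull k ((P.X k).ch 1) = (P.r k : ℝ) • P.hh k := by
    rw [P.c1_eq k, map_smul, ← P.cs]
    push_cast
    rfl
  rw [h1, smul_smul]
  congr 1
  · congr 1
    rw [Real.log_pow]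
    ring_nf
  · have h2 : Summable fun n => (x ^ n) • (P.X k).J n := by
      refine Summable.of_norm ?_
      refine ((P.X k).summable_J x).congr fun n => ?_
      rw [norm_smul, norm_pow, Real.norm_eq_abs, mul_comm]
    have h3 : HasSum (fun n => P.pull k ((x ^ n) • (P.X k).J n)) (P.pull k (∑' n, (x ^ n) • (P.X k).J n)) :=
      h2.hasSum.map (P.pull k) (P.pull_cont k)
    rw [← h3.tsum_eq]
    have h4 : Function.support (fun n => P.pull k ((x ^ n) • (P.X k).J n))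
        ⊆ Set.range fun n : ℕ => P.r k * n := by
      intro n hn
      by_contra hcon
      apply hn
      have h5 : ¬ P.r k ∣ n := by
        rintro ⟨m, rfl⟩
        exact hcon ⟨m, rfl⟩
      simp only [P.J_div k n h5, smul_zero, map_zero]
    rw [← (inj_mul (P.r_pos k)).tsum_eq h4]
    refine tsum_congr fun n => ?_
    rw [P.pull_smul, pow_mul]
    rfl

/-- The product of the `Γ(1 + L_j)`. -/
noncomputable def gL : P.Y.H := ∏ j, gam P.Y.dim (P.L j)

/-- Its inverse. -/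
noncomputable def gLinv : P.Y.H := ∏ j, exp (-(-(Real.eulerMascheroniConstant • P.L j)
    + ∑ k ∈ Icc 2 P.Y.dim, ((-1 : ℝ) ^ k * zetaR k / (k : ℝ)) • P.L j ^ k))

theorem gLinv_mul : P.gLinv * P.gL = 1 := by
  unfold gLinv gL
  rw [← prod_mul_distrib]
  exact prod_eq_one fun j _ => eneg_mul _

/-- The hypergeometric series. -/
noncomputable def I (t : ℝ) : P.Y.H := ∑' d : κ → ℕ, (∏ k, P.q t k ^ d k) •
  ((∏ j, ∏ m ∈ range (∑ k, P.a j k * d k), (((m : ℝ) + 1) • (1 : P.Y.H) + P.L j)) * ∏ k, P.c k (d k))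

theorem exists_B (hτ : TauLe P.a P.r) {t : ℝ} (ht : 0 < t) : ∃ B : ℝ, ∀ s ∈ pos ι,
    ∏ k, ∑' n, ‖P.c k n‖ * (yv (P.q t) P.a k s) ^ n ≤ B * ∏ j, Real.exp (s j / 2) := by
  choose C R hC hR h using P.c_sum
  set RR : ℝ := ∑ k, R k with hRR
  have hRR0 : 0 ≤ RR := sum_nonneg fun k _ => hR k
  obtain ⟨C', hC', hτ'⟩ := hτ (1 / (2 * (RR + 1))) (by positivity)
  refine ⟨(∏ k, C k) * Real.exp (RR * (C' * t)), fun s hs => ?_⟩
  have h1 : ∏ k, ∑' n, ‖P.c k n‖ * (yv (P.q t) P.a k s) ^ n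
      ≤ ∏ k, (C k * Real.exp (R k * tau P.a P.r t k s)) := by
    refine prod_le_prod (fun k _ => tsum_nonneg fun n => ?_) fun k _ => ?_
    · have := yv_pos (P.q_pos ht) P.a k hs
      positivity
    · rw [← P.tau_pow ht k hs]
      exact (h k _ (tau_pos P.a P.r ht k hs)).2
  refine h1.trans ?_
  rw [prod_mul_distrib, ← Real.exp_sum, ← Real.exp_sum]
  have hCp : 0 ≤ ∏ k, C k := prod_nonneg fun k _ => hC k
  rw [mul_assoc, ← Real.exp_add]
  refine mul_le_mul_of_nonneg_left (Real.exp_le_exp.2 ?_) hCp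
  have hsum : 0 ≤ ∑ j, s j := sum_nonneg fun j _ => (hs j (Set.mem_univ _)).le
  have h2 : ∑ k, R k * tau P.a P.r t k s ≤ ∑ k, R k * (1 / (2 * (RR + 1)) * ∑ j, s j + C' * t) :=
    sum_le_sum fun k _ => mul_le_mul_of_nonneg_left (hτ' t ht s hs k) (hR k)
  refine h2.trans ?_
  rw [← sum_mul, ← hRR, ← sum_div]
  have h3 : RR * (1 / (2 * (RR + 1)) * ∑ j, s j) ≤ (∑ j, s j) / 2 := by
    have h4 : RR / (RR + 1) ≤ 1 := by
      rw [div_le_one (by positivity)]
      linarith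
    calc RR * (1 / (2 * (RR + 1)) * ∑ j, s j) = RR / (RR + 1) * ((∑ j, s j) / 2) := by
          field_simp
      _ ≤ 1 * ((∑ j, s j) / 2) := mul_le_mul_of_nonneg_right h4 (by positivity)
      _ = _ := one_mul _
  linarith

/-- The integral representation. -/
theorem int_rep (hτ : TauLe P.a P.r) {t : ℝ} (ht : 0 < t) :
    P.gL * P.I t = ∫ s in pos ι, (∏ j, Real.exp (-(s j)) • exp (Real.log (s j) • P.L j))
        * ∏ k, ∑' n, ((yv (P.q t) P.a k s) ^ n) • P.c k n := by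
  obtain ⟨B, hB⟩ := P.exists_B hτ ht
  have h1 := rep (P.L_nil) P.c (P.q_pos ht) P.a (fun k y hy => P.c_summable k hy) hB
  have h2 : HasSum (fun d : κ → ℕ => (∏ k, P.q t k ^ d k) •
      ((∏ j, ∏ m ∈ range (∑ k, P.a j k * d k), (((m : ℝ) + 1) • (1 : P.Y.H) + P.L j)) * ∏ k, P.c k (d k)))
      (P.gLinv * ∫ s in pos ι, (∏ j, Real.exp (-(s j)) • exp (Real.log (s j) • P.L j))
        * ∏ k, ∑' n, ((yv (P.q t) P.a k s) ^ n) • P.c k n) := by
    refine (h1.mul_left P.gLinv).congr_fun ?_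
    intro d
    rw [prod_mul_distrib, mul_smul_comm]
    congr 1
    have h3 := P.gLinv_mul
    unfold gL at h3
    rw [mul_assoc, ← mul_assoc, h3, one_mul]
  unfold I
  rw [h2.tsum_eq, ← mul_assoc, mul_comm P.gL, P.gLinv_mul, one_mul]

theorem lef : ∃ g : ℂ, ∀ t : ℝ, 0 < t →
    Complex.exp (g * t) • P.Y.Jfun t = exp (Real.log t • P.cc) * P.I t := by
  obtain ⟨g, hg⟩ := P.lefschetz
  refine ⟨g, fun t ht => ?_⟩
  rw [hg t ht]
  unfold IData.Ifun clPow IData.modif IData.Jprod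
  rw [P.cs]
  congr 1
  unfold I
  refine tsum_congr fun d => ?_
  have h1 : ((t : ℂ) ^ (∑ k, (P.r k - ∑ j, P.a j k) * d k)) = ((∏ k, P.q t k ^ d k : ℝ) : ℂ) := by
    unfold q
    rw [← prod_pow_eq_pow_sum]
    push_cast
    refine prod_congr rfl fun k _ => ?_
    rw [pow_mul]
  rw [h1, P.cs]
  congr 1
  congr 1
  refine prod_congr rfl fun j _ => prod_congr rfl fun m _ => ?_
  congr 1
  rw [← P.cs]
  push_cast
  rfl

theorem cc_exp {t : ℝ} (ht : 0 < t) {s : ι → ℝ} (hs : s ∈ pos ι) :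
    exp (Real.log t • P.cc) * ∏ j, exp (Real.log (s j) • P.L j)
      = ∏ k, exp (Real.log ((tau P.a P.r t k s) ^ P.r k) • P.hh k) := by
  have e1 : ∀ {α : Type} (u : Finset α) (f : α → P.Y.H), ∏ i ∈ u, exp (f i) = exp (∑ i ∈ u, f i) := by
    intro α u f
    classical
    induction u using Finset.induction_on with
    | empty => simp
    | insert i u hi ih => rw [prod_insert hi, sum_insert hi, ih, eadd]
  rw [e1, e1, ← eadd]
  congr 1
  have h1 : ∀ k, Real.log ((tau P.a P.r t k s) ^ P.r k)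
      = ((P.r k : ℝ) - ∑ j, (P.a j k : ℝ)) * Real.log t + ∑ j, (P.a j k : ℝ) * Real.log (s j) := by
    intro k
    rw [P.tau_pow ht k hs]
    unfold yv q
    have hprod : ∏ j, s j ^ P.a j k ≠ 0 := by
      refine prod_ne_zero_iff.2 fun j _ => pow_ne_zero _ (ne_of_gt (hs j (Set.mem_univ _)))
    rw [Real.log_mul (pow_pos ht _).ne' hprod, Real.log_pow,
      Real.log_prod (fun j _ => pow_ne_zero _ (ne_of_gt (hs j (Set.mem_univ _)))),
      Nat.cast_sub (P.deg k).le]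
    push_cast
    congr 1
    refine sum_congr rfl fun j _ => ?_
    rw [Real.log_pow]
  have h2 : P.cc = ∑ k, ((P.r k : ℝ) - ∑ j, (P.a j k : ℝ)) • P.hh k := by
    unfold IData.cc
    refine sum_congr rfl fun k _ => ?_
    rw [← P.cs]
    push_cast
    rfl
  simp_rw [h1, h2, P.L_eq, smul_sum, add_smul, sum_add_distrib, sum_smul, smul_smul]
  congr 1
  · refine sum_congr rfl fun k _ => ?_
    congr 1
    ring
  · rw [sum_comm]
    refine sum_congr rfl fun k _ => sum_congr rfl fun j _ => ?_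
    congr 1
    ring

/-- The integral representation of the `J`-function of `Y`. -/
theorem J_rep (hτ : TauLe P.a P.r) : ∃ g : ℂ, ∀ t : ℝ, 0 < t →
    P.gL * (Complex.exp (g * t) • P.Y.Jfun t)
      = ∫ s in pos ι, Real.exp (-∑ i, s i) • ∏ k, P.pull k ((P.X k).Jfun (tau P.a P.r t k s)) := by
  obtain ⟨g, hg⟩ := P.lef
  refine ⟨g, fun t ht => ?_⟩
  have h1 : P.gL * (exp (Real.log t • P.cc) * P.I t) = exp (Real.log t • P.cc) * (P.gL * P.I t) := by ring
  rw [hg t ht, h1, P.int_rep hτ ht]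
  have h2 : ∀ s ∈ pos ι, Real.exp (-∑ i, s i) • ∏ k, P.pull k ((P.X k).Jfun (tau P.a P.r t k s))
      = exp (Real.log t • P.cc) * ((∏ j, Real.exp (-(s j)) • exp (Real.log (s j) • P.L j))
        * ∏ k, ∑' n, ((yv (P.q t) P.a k s) ^ n) • P.c k n) := by
    intro s hs
    have h3 : ∀ k, P.pull k ((P.X k).Jfun (tau P.a P.r t k s))
        = exp (Real.log ((tau P.a P.r t k s) ^ P.r k) • P.hh k)
          * ∑' n, ((yv (P.q t) P.a k s) ^ n) • P.c k n := by
      intro k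
      rw [P.pull_Jfun k (tau_pos P.a P.r ht k hs), P.tau_pow ht k hs]
    simp_rw [h3]
    rw [prod_mul_distrib, ← P.cc_exp ht hs, prod_smul, ← Real.exp_sum, ← sum_neg_distrib,
      smul_mul_assoc, mul_smul_comm, mul_assoc]
  rw [setIntegral_congr_fun (measurableSet_pos ι) h2]
  by_cases hint : IntegrableOn (fun s => (∏ j, Real.exp (-(s j)) • exp (Real.log (s j) • P.L j))
        * ∏ k, ∑' n, ((yv (P.q t) P.a k s) ^ n) • P.c k n) (pos ι)
  · have h4 := (ContinuousLinearMap.mul ℝ P.Y.H (exp (Real.log t • P.cc))).integral_comp_comm hint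
    simp only [ContinuousLinearMap.mul_apply'] at h4
    exact h4.symm
  · rw [integral_undef hint, mul_zero, integral_undef]
    intro hcon
    apply hint
    have h5 := hcon.const_mul (exp (-(Real.log t • P.cc)))
    refine h5.congr (Eventually.of_forall fun s => ?_)
    simp only
    rw [← mul_assoc, eneg_mul, one_mul]

end Intersection

end Pool.Agent.H75.GC
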